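import Mathlib

/-!
# Coefficient data and Ramanujan sums
-/

set_option autoImplicit false

namespace Pool.Agent.MU71

/-- Bounds for the coefficients `a`, for their Dirichlet inverse `h` and for the number of
divisors. -/
structure CoefData (a h : ℕ → ℤ) (A δ : ℝ) : Prop where
  dpos : 0 < δ
  dle : δ ≤ 1 / 2
  Aone : 1 ≤ A
  ha0 : a 0 = 0
  ha : ∀ m : ℕ, 1 ≤ m → |(a m : ℝ)| ≤ A * (m : ℝ) ^ (1 - δ)
  hh : ∀ k : ℕ, 1 ≤ k → |(h k : ℝ)| ≤ A * (k : ℝ) ^ (1 - δ)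
  hdiv : ∀ x : ℕ, 1 ≤ x → (x.divisors.card : ℝ) ≤ A * (x : ℝ) ^ (δ / 2)
  conv : ∀ x : ℕ, 1 ≤ x → ∑ k ∈ x.divisors, h k * a (x / k) = if x = 1 then 1 else 0

/-- The normalised Ramanujan sum `(1/Q) ∑_{b mod Q, (b,Q)=1} e(xb/Q)`. -/
noncomputable def ram (Q : ℕ) [NeZero Q] (x : ZMod Q) : ℂ :=
  (1 / (Q : ℂ)) * ∑ b : (ZMod Q)ˣ, ZMod.stdAddChar (x * (b : ZMod Q))

end Pool.Agent.MU71
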