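import Pool.Agent.MU71.Det

/-!
# Corollaries of the main inequality (pure algebra and real analysis)
-/

set_option autoImplicit false
open Finset PowerSeries

namespace Pool.Agent.MU71

/-- A power series all of whose coefficients of index `< p ^ m` are nonunits lies in
`(p, (1 + X) ^ (p ^ m) - 1)`. -/
theorem mem_of_coeff {p : ℕ} [hp : Fact p.Prime] (m : ℕ) (L : PowerSeries ℤ_[p])
    (h : ∀ i < p ^ m, ¬ IsUnit (coeff i L)) :
    L ∈ Ideal.span {(p : PowerSeries ℤ_[p]) ^ 1, (1 + X) ^ (p ^ m) - 1} := by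
  have h1 : ∀ i, i < p ^ m → ∃ c : ℤ_[p], coeff i L = p * c := by
    intro i hi
    have h2 := h i hi
    rw [PadicInt.isUnit_iff] at h2
    have h3 : ‖coeff i L‖ < 1 := lt_of_le_of_ne (PadicInt.norm_le_one _) h2
    rw [PadicInt.norm_lt_one_iff_dvd] at h3
    exact h3
  choose! c hc using h1
  set A : PowerSeries ℤ_[p] := PowerSeries.mk (fun i => if i < p ^ m then c i else 0) with hA
  set B : PowerSeries ℤ_[p] := PowerSeries.mk (fun i => coeff (i + p ^ m) L) with hB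
  have hL : L = (p : PowerSeries ℤ_[p]) * A + X ^ (p ^ m) * B := by
    ext i
    have hpA : coeff i ((p : PowerSeries ℤ_[p]) * A) = (p : ℤ_[p]) * coeff i A := by
      rw [← nsmul_eq_mul, map_nsmul, nsmul_eq_mul]
    rw [map_add, hpA, coeff_X_pow_mul', hA, hB, coeff_mk]
    by_cases hi : i < p ^ m
    · rw [if_pos hi, if_neg (not_le.2 hi), add_zero, ← hc i hi]
    · rw [if_neg hi, if_pos (not_lt.1 hi), coeff_mk, Nat.sub_add_cancel (not_lt.1 hi)]
      simp
  obtain ⟨r, hr⟩ := exists_add_pow_prime_pow_eq hp.out (1 : PowerSeries ℤ_[p]) X m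
  have hX : (X : PowerSeries ℤ_[p]) ^ (p ^ m) =
      ((1 + X) ^ (p ^ m) - 1) + (p : PowerSeries ℤ_[p]) ^ 1 * (-(X * r)) := by
    rw [hr]
    ring
  have hp1 : (p : PowerSeries ℤ_[p]) ^ 1 ∈
      Ideal.span {(p : PowerSeries ℤ_[p]) ^ 1, (1 + X) ^ (p ^ m) - 1} :=
    Ideal.subset_span (by simp)
  have hp2 : (1 + X : PowerSeries ℤ_[p]) ^ (p ^ m) - 1 ∈
      Ideal.span {(p : PowerSeries ℤ_[p]) ^ 1, (1 + X) ^ (p ^ m) - 1} :=
    Ideal.subset_span (by simp)
  rw [hL]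
  refine Ideal.add_mem _ ?_ ?_
  · have h7 : (p : PowerSeries ℤ_[p]) * A = (p : PowerSeries ℤ_[p]) ^ 1 * A := by rw [pow_one]
    rw [h7]
    exact Ideal.mul_mem_right _ _ hp1
  · refine Ideal.mul_mem_right _ _ ?_
    rw [hX]
    exact Ideal.add_mem _ hp2 (Ideal.mul_mem_right _ _ hp1)

open Classical in
theorem corollaries (C : ℝ) : ∃ (C' : ℝ) (p₁ : ℕ), ∀ (p : ℕ) [Fact p.Prime], p₁ ≤ p →
    ∀ (m : ℕ) (L : DirichletCharacter ℤ_[p] p → PowerSeries ℤ_[p]),
      (∀ K : Subgroup (ZMod p)ˣ, -1 ∈ K → ∀ e : DirichletCharacter ℤ_[p] p → ℕ,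
        (∀ ψ : DirichletCharacter ℤ_[p] p, (∀ k ∈ K, ψ (k : ZMod p) = 1) →
          L ψ ∈ Ideal.span {(p : PowerSeries ℤ_[p]) ^ e ψ, (1 + X) ^ (p ^ m) - 1}) →
        (p : ℝ) ^ (∑ ψ ∈ univ.filter (fun ψ : DirichletCharacter ℤ_[p] p =>
            ∀ k ∈ K, ψ (k : ZMod p) = 1), e ψ) ≤
          (C * p * Real.log p / √K.index) ^ K.index) →
      L 1 ∉ Ideal.span {(p : PowerSeries ℤ_[p]) ^ 2, (1 + X) ^ (p ^ m) - 1} ∧
      ∀ K : Subgroup (ZMod p)ˣ, -1 ∈ K →
        (Real.log K.index / (2 * Real.log p) - C' * Real.log (Real.log p) / Real.log p) * K.index ≤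
          ((univ.filter (fun ψ : DirichletCharacter ℤ_[p] p => (∀ k ∈ K, ψ (k : ZMod p) = 1) ∧
            ∃ i < p ^ m, IsUnit (coeff i (L ψ)))).card : ℝ) := by
  obtain ⟨D, hD⟩ : ∃ D : ℝ, D = max C 0 + 1 := ⟨_, rfl⟩
  have hDC : C < D := by rw [hD]; linarith [le_max_left C 0]
  have hD1 : 1 ≤ D := by rw [hD]; linarith [le_max_right C 0]
  refine ⟨2, ⌈Real.exp D⌉₊, ?_⟩
  intro p hp hp1 m L hmain
  have hpe : Real.exp D ≤ p := Nat.ceil_le.1 hp1
  have hp0 : (0 : ℝ) < p := Nat.cast_pos.2 hp.out.pos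
  obtain ⟨ℓ, hℓ⟩ : ∃ ℓ : ℝ, ℓ = Real.log p := ⟨_, rfl⟩
  have hℓD : D ≤ ℓ := by
    rw [hℓ, Real.le_log_iff_exp_le hp0]
    exact hpe
  have hℓ0 : 0 < ℓ := by linarith
  have hexp : Real.exp ℓ = p := by rw [hℓ, Real.exp_log hp0]
  have hsq : ℓ ^ 2 ≤ p := by
    rw [← hexp]
    have h1 : 1 + ℓ / 4 ≤ Real.exp (ℓ / 4) := by linarith [Real.add_one_le_exp (ℓ / 4)]
    have h2 : Real.exp ℓ = Real.exp (ℓ / 4) ^ 4 := by
      rw [← Real.exp_nat_mul]
      congr 1
      push_cast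
      ring
    have h3 : (1 + ℓ / 4) ^ 4 ≤ Real.exp (ℓ / 4) ^ 4 :=
      pow_le_pow_left₀ (by positivity) h1 4
    have h4 : ℓ ^ 2 ≤ (1 + ℓ / 4) ^ 4 := by
      have h5 : (1 + ℓ / 4) ^ 4 - ℓ ^ 2 = (1 - ℓ / 4) ^ 2 * ((1 + ℓ / 4) ^ 2 + ℓ) := by ring
      have h6 : 0 ≤ (1 - ℓ / 4) ^ 2 * ((1 + ℓ / 4) ^ 2 + ℓ) := by positivity
      linarith
    rw [h2]
    linarith
  have hCp : C * ℓ < p := by
    have h1 : C * ℓ < D * ℓ := mul_lt_mul_of_pos_right hDC hℓ0
    have h2 : D * ℓ ≤ ℓ ^ 2 := by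
      rw [sq]
      exact mul_le_mul_of_nonneg_right hℓD hℓ0.le
    linarith
  have hall : ∀ (ψ : DirichletCharacter ℤ_[p] p) (y : PowerSeries ℤ_[p]),
      L ψ ∈ Ideal.span {(p : PowerSeries ℤ_[p]) ^ 0, y} := by
    intro ψ y
    have h1 : (1 : PowerSeries ℤ_[p]) ∈ Ideal.span {(p : PowerSeries ℤ_[p]) ^ 0, y} :=
      Ideal.subset_span (by simp)
    have h2 := Ideal.mul_mem_left _ (L ψ) h1
    rwa [mul_one] at h2
  have htriv : ∀ ψ : DirichletCharacter ℤ_[p] p,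
      (∀ k ∈ (⊤ : Subgroup (ZMod p)ˣ), ψ (k : ZMod p) = 1) ↔ ψ = 1 := by
    intro ψ
    constructor
    · intro h
      apply MulChar.ext
      intro x
      rw [h x (Subgroup.mem_top x)]
      simp
    · rintro rfl k -
      simp
  have hfilt : univ.filter (fun ψ : DirichletCharacter ℤ_[p] p =>
      ∀ k ∈ (⊤ : Subgroup (ZMod p)ˣ), ψ (k : ZMod p) = 1) = {1} := by
    ext ψ
    rw [mem_filter, htriv, mem_singleton]
    simp
  have hC0 : 0 < C := by
    have h1 := hmain ⊤ (Subgroup.mem_top _) (fun _ => 0) (fun ψ _ => hall ψ _)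
    rw [Finset.sum_const_zero, pow_zero, Subgroup.index_top] at h1
    simp only [Nat.cast_one, Real.sqrt_one, div_one, pow_one] at h1
    rw [← hℓ] at h1
    by_contra hC
    have h2 : C * p * ℓ ≤ 0 := by
      have h3 : C * (p * ℓ) ≤ 0 := mul_nonpos_of_nonpos_of_nonneg (not_lt.1 hC) (by positivity)
      linarith [mul_assoc C (p : ℝ) ℓ]
    linarith
  constructor
  · intro hmem
    have h1 := hmain ⊤ (Subgroup.mem_top _) (fun _ => 2) (fun ψ hψ => by
      rw [(htriv ψ).1 hψ]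
      exact hmem)
    rw [hfilt, Finset.sum_singleton, Subgroup.index_top] at h1
    simp only [Nat.cast_one, Real.sqrt_one, div_one, pow_one] at h1
    rw [← hℓ] at h1
    have h2 : (p : ℝ) * (C * ℓ) < p * p := mul_lt_mul_of_pos_left hCp hp0
    have h3 : (p : ℝ) ^ 2 = p * p := sq _
    have h4 : C * p * ℓ = p * (C * ℓ) := by ring
    linarith
  · intro K hK
    obtain ⟨h, hh⟩ : ∃ h : ℕ, h = K.index := ⟨_, rfl⟩
    have hh0 : 0 < h := by
      rw [hh]
      exact Nat.pos_of_ne_zero Subgroup.index_ne_zero_of_finite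
    have hhR : (0 : ℝ) < h := Nat.cast_pos.2 hh0
    let Good : DirichletCharacter ℤ_[p] p → Prop := fun ψ => ∃ i < p ^ m, IsUnit (coeff i (L ψ))
    let e : DirichletCharacter ℤ_[p] p → ℕ := fun ψ => if Good ψ then 0 else 1
    have h1 := hmain K hK e (fun ψ _ => by
      by_cases hg : Good ψ
      · have he : e ψ = 0 := if_pos hg
        rw [he]
        exact hall ψ _
      · have he : e ψ = 1 := if_neg hg
        rw [he]
        refine mem_of_coeff m (L ψ) fun i hi hu => hg ⟨i, hi, hu⟩)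
    rw [← hh, ← hℓ] at h1
    rw [← hh, ← hℓ]
    set G := univ.filter (fun ψ : DirichletCharacter ℤ_[p] p => ∀ k ∈ K, ψ (k : ZMod p) = 1) with hG
    set S := univ.filter (fun ψ : DirichletCharacter ℤ_[p] p => (∀ k ∈ K, ψ (k : ZMod p) = 1) ∧
            ∃ i < p ^ m, IsUnit (coeff i (L ψ))) with hS
    have hGcard : G.card = h := by
      have h2 := card_chars (p := p) K
      rw [Nat.card_eq_fintype_card, Fintype.card_subtype] at h2
      rw [hh, hG, Subgroup.index]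
      exact h2
    have hsum : ∑ ψ ∈ G, e ψ + S.card = h := by
      rw [← hGcard]
      have h2 : S = G.filter Good := by
        rw [hS, hG, Finset.filter_filter]
      have h3 : ∑ ψ ∈ G, e ψ = (G.filter (fun ψ => ¬ Good ψ)).card := by
        rw [Finset.card_filter]
        refine Finset.sum_congr rfl fun ψ _ => ?_
        by_cases hg : Good ψ
        · simp [e, hg]
        · simp [e, hg]
      rw [h3, h2, add_comm]
      exact Finset.card_filter_add_card_filter_not _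
    obtain ⟨b, hb⟩ : ∃ b : ℕ, b = ∑ ψ ∈ G, e ψ := ⟨_, rfl⟩
    rw [← hb] at h1 hsum
    obtain ⟨lam, hlam⟩ : ∃ lam : ℝ, lam = Real.log ℓ := ⟨_, rfl⟩
    have hlogC : Real.log C ≤ lam := by
      rw [hlam]
      exact Real.log_le_log hC0 (by linarith)
    have hpos : 0 < C * p * ℓ / √(h : ℝ) := by positivity
    have h2 : (b : ℝ) * ℓ ≤ h * (Real.log C + ℓ + lam - Real.log h / 2) := by
      have h3 := Real.log_le_log (by positivity) h1
      rw [Real.log_pow, Real.log_pow, ← hℓ, Real.log_div (by positivity) (by positivity),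
        Real.log_mul (by positivity) (by positivity), Real.log_mul (by positivity) (by positivity),
        ← hℓ, ← hlam, Real.log_sqrt hhR.le] at h3
      exact h3
    have h4 : (h : ℝ) * Real.log C ≤ h * lam := mul_le_mul_of_nonneg_left hlogC hhR.le
    have h5 : (b : ℝ) + S.card = h := by exact_mod_cast hsum
    rw [← hlam]
    have h6 : (Real.log h / (2 * ℓ) - 2 * lam / ℓ) * h = (h * (Real.log h / 2 - 2 * lam)) / ℓ := by
      field_simp
    rw [h6, div_le_iff₀ hℓ0]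
    have h7 : (S.card : ℝ) * ℓ = h * ℓ - b * ℓ := by
      rw [← h5]
      ring
    rw [h7]
    nlinarith [h2, h4]

end Pool.Agent.MU71
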