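import Pool.Agent.MU1.Had
import Pool.Agent.MZ.Teich

/-!
# The determinant bound over the characters trivial on a subgroup `K` of `(ZMod p)ˣ`
-/

set_option autoImplicit false

open Finset

namespace Pool.Agent.MU71

section Table

variable {p : ℕ} [Fact p.Prime] (K : Subgroup (ZMod p)ˣ)

instance enoughQuot : HasEnoughRootsOfUnity ℤ_[p] (Monoid.exponent ((ZMod p)ˣ ⧸ K)) :=
  HasEnoughRootsOfUnity.of_dvd ℤ_[p] (n := Monoid.exponent (ZMod p)ˣ)
    (Group.exponent_quotient_dvd K)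

/-- A character trivial on `K`, as a homomorphism on the quotient. -/
noncomputable def toQ (ψ : {ψ : DirichletCharacter ℤ_[p] p // ∀ k ∈ K, ψ (k : ZMod p) = 1}) :
    ((ZMod p)ˣ ⧸ K) →* ℤ_[p]ˣ :=
  QuotientGroup.lift K (MulChar.toUnitHom ψ.1) (by
    intro k hk
    ext
    simpa using congrArg (fun z => ((z : ℤ_[p]))) (ψ.2 k hk))

theorem toQ_mk (ψ : {ψ : DirichletCharacter ℤ_[p] p // ∀ k ∈ K, ψ (k : ZMod p) = 1})
    (x : (ZMod p)ˣ) : ((toQ K ψ (QuotientGroup.mk x) : ℤ_[p]ˣ) : ℤ_[p]) = ψ.1 (x : ZMod p) := by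
  simp [toQ]

theorem toQ_bijective : Function.Bijective (toQ (p := p) K) := by
  constructor
  · intro ψ ψ' h
    apply Subtype.ext
    apply MulChar.ext
    intro x
    rw [← toQ_mk K ψ x, ← toQ_mk K ψ' x, h]
  · intro φ
    refine ⟨⟨MulChar.ofUnitHom (φ.comp (QuotientGroup.mk' K)), ?_⟩, ?_⟩
    · intro k hk
      have : (QuotientGroup.mk k : (ZMod p)ˣ ⧸ K) = 1 := (QuotientGroup.eq_one_iff k).2 hk
      simp [this]
    · apply MonoidHom.ext
      intro q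
      obtain ⟨x, rfl⟩ := QuotientGroup.mk_surjective q
      apply Units.ext
      rw [toQ_mk]
      simp

theorem card_chars : Nat.card {ψ : DirichletCharacter ℤ_[p] p // ∀ k ∈ K, ψ (k : ZMod p) = 1} =
    Nat.card ((ZMod p)ˣ ⧸ K) := by
  rw [Nat.card_congr (Equiv.ofBijective _ (toQ_bijective (p := p) K))]
  exact CommGroup.card_monoidHom_of_hasEnoughRootsOfUnity ((ZMod p)ˣ ⧸ K) ℤ_[p]

theorem isUnit_index : IsUnit ((Nat.card ((ZMod p)ˣ ⧸ K) : ℕ) : ℤ_[p]) := by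
  have hp : p.Prime := Fact.out
  have h1 : Nat.card ((ZMod p)ˣ ⧸ K) ∣ p - 1 := by
    have h2 : Nat.card ((ZMod p)ˣ ⧸ K) ∣ Nat.card (ZMod p)ˣ := Subgroup.card_quotient_dvd_card K
    rwa [Nat.card_eq_fintype_card (α := (ZMod p)ˣ), ZMod.card_units] at h2
  rw [PadicInt.isUnit_iff, PadicInt.norm_natCast_eq_one_iff]
  have h3 : Nat.Coprime p (p - 1) := by
    have := Nat.coprime_self_sub_right (m := 1) (n := p) hp.one_lt.le
    simpa using this
  exact Nat.Coprime.coprime_dvd_right h1 h3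

/-- The character table of `(ZMod p)ˣ ⧸ K` is unimodular over `ℤ_[p]`. -/
theorem table_isUnit [Fintype ((ZMod p)ˣ ⧸ K)] [DecidableEq ((ZMod p)ˣ ⧸ K)]
    (eJ : {ψ : DirichletCharacter ℤ_[p] p // ∀ k ∈ K, ψ (k : ZMod p) = 1} ≃ ((ZMod p)ˣ ⧸ K)) :
    IsUnit (Matrix.of (fun k l : (ZMod p)ˣ ⧸ K =>
      ((toQ K (eJ.symm k) l : ℤ_[p]ˣ) : ℤ_[p]))).det := by
  classical
  set X : Matrix ((ZMod p)ˣ ⧸ K) ((ZMod p)ˣ ⧸ K) ℤ_[p] :=
    Matrix.of (fun k l => ((toQ K (eJ.symm k) l : ℤ_[p]ˣ) : ℤ_[p])) with hX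
  let Y : Matrix ((ZMod p)ˣ ⧸ K) ((ZMod p)ˣ ⧸ K) ℤ_[p] :=
    Matrix.of (fun l k => (((toQ K (eJ.symm k) l)⁻¹ : ℤ_[p]ˣ) : ℤ_[p]))
  have hXY : X * Y = ((Nat.card ((ZMod p)ˣ ⧸ K) : ℕ) : ℤ_[p]) • (1 : Matrix _ _ ℤ_[p]) := by
    ext k k'
    rw [Matrix.mul_apply, Matrix.smul_apply, Matrix.one_apply]
    let f : ((ZMod p)ˣ ⧸ K) →* ℤ_[p] :=
      (Units.coeHom ℤ_[p]).comp (toQ K (eJ.symm k) / toQ K (eJ.symm k'))
    have h1 : ∀ l, X k l * Y l k' = f l := by
      intro l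
      simp [X, Y, f, div_eq_mul_inv]
    rw [Finset.sum_congr rfl (fun l _ => h1 l), sum_hom_units]
    have h2 : f = 1 ↔ k = k' := by
      constructor
      · intro h
        have h3 : toQ K (eJ.symm k) = toQ K (eJ.symm k') := by
          apply MonoidHom.ext
          intro l
          have h4 : ((toQ K (eJ.symm k) / toQ K (eJ.symm k')) l : ℤ_[p]ˣ) = 1 := by
            apply Units.ext
            exact DFunLike.congr_fun h l
          rw [MonoidHom.div_apply, div_eq_one] at h4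
          exact h4
        exact eJ.symm.injective ((toQ_bijective K).1 h3)
      · rintro rfl
        ext l
        simp [f]
    by_cases h : k = k'
    · rw [if_pos (h2.2 h), if_pos h, Nat.card_eq_fintype_card]
      simp
    · rw [if_neg (fun h3 => h (h2.1 h3)), if_neg h]
      simp
  have h5 : X.det * Y.det = ((Nat.card ((ZMod p)ˣ ⧸ K) : ℕ) : ℤ_[p]) ^
      Fintype.card ((ZMod p)ˣ ⧸ K) := by
    rw [← Matrix.det_mul, hXY, Matrix.det_smul, Matrix.det_one, mul_one]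
  exact isUnit_of_mul_isUnit_left (h5 ▸ (isUnit_index K).pow _)

end Table

open Classical in
theorem abstract_bound {p : ℕ} [Fact p.Prime] (K : Subgroup (ZMod p)ˣ) {β : Type*} [Finite β]
    (V : β → (ZMod p)ˣ → ℤ) (B : ℝ) (hB : ∀ b x, |(V b x : ℝ)| ≤ B)
    (hindep : ∀ w : (ZMod p)ˣ → ℝ, (∀ x, ∀ k ∈ K, w (k * x) = w x) →
      (∀ b, ∑ x, w x * (V b x : ℝ) = 0) → w = 0)
    (e : DirichletCharacter ℤ_[p] p → ℕ)
    (he : ∀ ψ : DirichletCharacter ℤ_[p] p, (∀ k ∈ K, ψ (k : ZMod p) = 1) →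
      ∀ b, (p : ℤ_[p]) ^ e ψ ∣ ∑ x : (ZMod p)ˣ, ψ (x : ZMod p) * (V b x : ℤ_[p])) :
    (p : ℝ) ^ (∑ ψ ∈ (Finset.univ : Finset (DirichletCharacter ℤ_[p] p)).filter
        (fun ψ => ∀ k ∈ K, ψ (k : ZMod p) = 1), e ψ) ≤
      (((p : ℝ) - 1) / Real.sqrt K.index * B) ^ K.index := by
  have hp : p.Prime := Fact.out
  have hfin : Fintype ((ZMod p)ˣ ⧸ K) := Fintype.ofFinite _
  let J := {ψ : DirichletCharacter ℤ_[p] p // ∀ k ∈ K, ψ (k : ZMod p) = 1}
  have hcardJ : Fintype.card J = Fintype.card ((ZMod p)ˣ ⧸ K) := by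
    rw [← Nat.card_eq_fintype_card, ← Nat.card_eq_fintype_card]
    exact card_chars K
  let eJ : J ≃ ((ZMod p)ˣ ⧸ K) := Fintype.equivOfCardEq hcardJ
  -- coset sums
  let w : β → ((ZMod p)ˣ ⧸ K) → ℤ := fun b q =>
    ∑ x ∈ (univ : Finset (ZMod p)ˣ).filter (fun x => (QuotientGroup.mk x : (ZMod p)ˣ ⧸ K) = q),
      V b x
  have hsumw : ∀ {R : Type} [CommRing R] (c : ((ZMod p)ˣ ⧸ K) → R) (b : β),
      ∑ q, c q * (w b q : R) = ∑ x : (ZMod p)ˣ, c (QuotientGroup.mk x) * (V b x : R) := by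
    intro R _ c b
    rw [← Finset.sum_fiberwise (s := (univ : Finset (ZMod p)ˣ))
      (g := fun x => (QuotientGroup.mk x : (ZMod p)ˣ ⧸ K))
      (f := fun x => c (QuotientGroup.mk x) * (V b x : R))]
    apply Finset.sum_congr rfl
    intro q _
    rw [show (w b q : R) = ∑ x ∈ (univ : Finset (ZMod p)ˣ).filter
      (fun x => (QuotientGroup.mk x : (ZMod p)ˣ ⧸ K) = q), (V b x : R) by simp [w], Finset.mul_sum]
    apply Finset.sum_congr rfl
    intro x hx
    rw [(Finset.mem_filter.1 hx).2]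
  have hidx : Fintype.card ((ZMod p)ˣ ⧸ K) = K.index := by
    rw [← Nat.card_eq_fintype_card]; rfl
  have hKcard : ∀ q : (ZMod p)ˣ ⧸ K, ((univ : Finset (ZMod p)ˣ).filter
      (fun x => (QuotientGroup.mk x : (ZMod p)ˣ ⧸ K) = q)).card = Nat.card K := by
    intro q
    obtain ⟨y, rfl⟩ := QuotientGroup.mk_surjective q
    rw [Nat.card_eq_fintype_card, ← Finset.card_univ (α := K)]
    symm
    apply Finset.card_bij (fun (k : K) _ => y * (k : (ZMod p)ˣ))
    · intro k _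
      simp
    · intro k _ k' _ h
      exact Subtype.ext (mul_left_cancel h)
    · intro x hx
      have h1 : (QuotientGroup.mk x : (ZMod p)ˣ ⧸ K) = QuotientGroup.mk y := (Finset.mem_filter.1 hx).2
      refine ⟨⟨y⁻¹ * x, QuotientGroup.eq.1 h1.symm⟩, Finset.mem_univ _, ?_⟩
      simp
  have hcardK : (Nat.card K : ℝ) * K.index = (p : ℝ) - 1 := by
    have h1 : Nat.card K * K.index = p - 1 := by
      rw [Subgroup.card_mul_index, Nat.card_eq_fintype_card, ZMod.card_units]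
    have h2 : ((Nat.card K * K.index : ℕ) : ℝ) = ((p - 1 : ℕ) : ℝ) := by rw [h1]
    rw [Nat.cast_mul, Nat.cast_sub hp.one_lt.le] at h2
    simpa using h2
  have hB' : ∀ b q, |(w b q : ℝ)| ≤ (Nat.card K : ℝ) * B := by
    intro b q
    have h1 : (w b q : ℝ) = ∑ x ∈ (univ : Finset (ZMod p)ˣ).filter
      (fun x => (QuotientGroup.mk x : (ZMod p)ˣ ⧸ K) = q), (V b x : ℝ) := by simp [w]
    rw [h1]
    refine (Finset.abs_sum_le_sum_abs _ _).trans ?_
    refine (Finset.sum_le_card_nsmul _ _ B (fun x _ => hB b x)).trans ?_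
    rw [hKcard, nsmul_eq_mul]
  have hspan : ∀ c : ((ZMod p)ˣ ⧸ K) → ℝ, (∀ b, ∑ q, c q * (w b q : ℝ) = 0) → c = 0 := by
    intro c hc
    have h1 := hindep (fun x => c (QuotientGroup.mk x)) (by
      intro x k hk
      have : (QuotientGroup.mk (k * x) : (ZMod p)ˣ ⧸ K) = QuotientGroup.mk x := by
        rw [QuotientGroup.eq]
        have : (k * x)⁻¹ * x = k⁻¹ := by
          rw [mul_inv_rev, mul_assoc, mul_comm k⁻¹ x, ← mul_assoc, inv_mul_cancel, one_mul]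
        rw [this]
        exact K.inv_mem hk
      simp only [this]) (by
      intro b
      rw [← hsumw c b]
      exact hc b)
    funext q
    obtain ⟨x, rfl⟩ := QuotientGroup.mk_surjective q
    exact congrFun h1 x
  have key := MU1.padic_hadamard (p := p) (κ := (ZMod p)ˣ ⧸ K) (ι := β) (J := J) eJ w
    (B := (Nat.card K : ℝ) * B) hB' hspan
    (fun ψ q => ((toQ K ψ q : ℤ_[p]ˣ) : ℤ_[p])) (table_isUnit K eJ) (fun ψ => e ψ.1) (by
      intro b ψ
      rw [hsumw (fun q => ((toQ K ψ q : ℤ_[p]ˣ) : ℤ_[p])) b]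
      have := he ψ.1 ψ.2 b
      simpa [toQ_mk] using this)
  have hsum : ∑ ψ ∈ (Finset.univ : Finset (DirichletCharacter ℤ_[p] p)).filter
        (fun ψ => ∀ k ∈ K, ψ (k : ZMod p) = 1), e ψ = ∑ ψ : J, e ψ.1 := by
    apply Finset.sum_subtype
    intro ψ
    simp
  rw [hsum]
  refine key.trans (le_of_eq ?_)
  rw [hidx]
  congr 1
  have hi : (0 : ℝ) < K.index := by
    have : 0 < K.index := Nat.pos_of_ne_zero Subgroup.index_ne_zero_of_finite
    exact_mod_cast this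
  rw [← hcardK]
  have hs : Real.sqrt K.index ^ 2 = K.index := Real.sq_sqrt hi.le
  have hs0 : Real.sqrt K.index ≠ 0 := (Real.sqrt_pos.2 hi).ne'
  field_simp
  rw [hs, mul_comm]

end Pool.Agent.MU71
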