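import Pool.Agent.MU71.MainTerm
import Pool.Agent.MU1.Kl

/-!
# The core inequality
-/

set_option autoImplicit false

open Finset
open scoped Real

namespace Pool.Agent.MU71

open Pool.Agent.MU1

variable {a h : ℕ → ℤ} {A δ : ℝ}

theorem RR_unit_mul (q : ℕ) [NeZero q] (u : (ZMod q)ˣ) (x : ZMod q) :
    RR q ((u : ZMod q) * x) = RR q x := by
  rw [RR, RR]
  refine Fintype.sum_equiv (Equiv.mulLeft u) _ _ fun b => ?_
  rw [Equiv.coe_mulLeft, Units.val_mul]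
  congr 1
  ring

theorem RR_unit_eq_zero {p : ℕ} (hp : p.Prime) {n q : ℕ} [NeZero q] (hn : 1 ≤ n)
    (hq : q = p ^ (n + 1)) (u : (ZMod q)ˣ) : RR q (u : ZMod q) = 0 := by
  apply RR_eq_zero hp hq
  intro h0
  have h1 : (p : ZMod q) = 0 := by
    have := congrArg (fun z => z * ((u⁻¹ : (ZMod q)ˣ) : ZMod q)) h0
    simpa [mul_assoc] using this
  rw [ZMod.natCast_eq_zero_iff, hq] at h1
  have h2 := Nat.le_of_dvd hp.pos h1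
  have h3 : p ^ 1 < p ^ (n + 1) := Nat.pow_lt_pow_right hp.one_lt (by omega)
  rw [pow_one] at h3
  omega

theorem norm_std (q : ℕ) [NeZero q] (x : ZMod q) : ‖(ZMod.stdAddChar x : ℂ)‖ = 1 :=
  AddChar.norm_apply _ _

theorem conj_std (q : ℕ) [NeZero q] (x : ZMod q) :
    (starRingEnd ℂ) (ZMod.stdAddChar x : ℂ) = ZMod.stdAddChar (-x) := by
  rw [AddChar.map_neg_eq_conj]

/-- Kloosterman sums against an absolutely convergent series. -/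
theorem kl_tsum {p : ℕ} (hp : p.Prime) (hp2 : p ≠ 2) {ν q : ℕ} [NeZero q] (hν : 1 ≤ ν)
    (hq : q = p ^ (2 * ν)) (u : (ZMod q)ˣ) {γ : ℕ → ℂ} (hγ : Summable (fun m => ‖γ m‖))
    (s : ℕ → ZMod q) :
    ‖∑ b : (ZMod q)ˣ, (ZMod.stdAddChar ((u : ZMod q) * (b : ZMod q)) : ℂ) *
      ∑' m : ℕ, γ m * ZMod.stdAddChar (s m * ((b⁻¹ : (ZMod q)ˣ) : ZMod q))‖ ≤
      (∑' m : ℕ, ‖γ m‖) * (2 * (p : ℝ) ^ ν) := by
  have hsum : ∀ b : (ZMod q)ˣ, Summable (fun m : ℕ =>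
      (ZMod.stdAddChar ((u : ZMod q) * (b : ZMod q)) : ℂ) *
        (γ m * ZMod.stdAddChar (s m * ((b⁻¹ : (ZMod q)ˣ) : ZMod q)))) := by
    intro b
    apply Summable.of_norm
    refine hγ.congr fun m => ?_
    rw [norm_mul, norm_mul, norm_std, norm_std, one_mul, mul_one]
  have h1 : ∑ b : (ZMod q)ˣ, (ZMod.stdAddChar ((u : ZMod q) * (b : ZMod q)) : ℂ) *
      ∑' m : ℕ, γ m * ZMod.stdAddChar (s m * ((b⁻¹ : (ZMod q)ˣ) : ZMod q)) =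
      ∑' m : ℕ, γ m * ∑ b : (ZMod q)ˣ, (ZMod.stdAddChar ((u : ZMod q) * (b : ZMod q) +
        s m * ((b⁻¹ : (ZMod q)ˣ) : ZMod q)) : ℂ) := by
    simp only [← tsum_mul_left]
    rw [← Summable.tsum_finsetSum fun b _ => hsum b]
    refine tsum_congr fun m => ?_
    rw [mul_sum]
    refine sum_congr rfl fun b _ => ?_
    rw [AddChar.map_add_eq_mul]
    ring
  rw [h1, ← tsum_mul_right]
  apply tsum_of_norm_bounded (hγ.mul_right (2 * (p : ℝ) ^ ν)).hasSum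
  intro m
  rw [norm_mul]
  exact mul_le_mul_of_nonneg_left (kloosterman_le hp hp2 hν hq _ _ u.isUnit) (norm_nonneg _)

/-- the main side -/
noncomputable def PP (a : ℕ → ℤ) (q : ℕ) [NeZero q] (Y : ℝ) (b : ZMod q) : ℂ :=
  ∑' m : ℕ, ((a m : ℂ) / (m : ℂ)) * (Real.exp (-2 * π * m * Y) : ℂ) *
    ZMod.stdAddChar ((m : ZMod q) * b)

theorem CoefData.a_div_le (H : CoefData a h A δ) (m : ℕ) : ‖(a m : ℂ) / (m : ℂ)‖ ≤ A := by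
  have hA : 0 ≤ A := zero_le_one.trans H.Aone
  rcases Nat.eq_zero_or_pos m with h0 | hm
  · subst h0
    simpa using hA
  · have hm0 : (0 : ℝ) < m := by exact_mod_cast hm
    rw [norm_div, Complex.norm_natCast, Complex.norm_intCast, div_le_iff₀ hm0]
    refine (H.ha m hm).trans ?_
    apply mul_le_mul_of_nonneg_left _ hA
    calc (m : ℝ) ^ (1 - δ) ≤ (m : ℝ) ^ (1 : ℝ) := by
          apply Real.rpow_le_rpow_of_exponent_le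
          · exact_mod_cast hm
          · linarith [H.dpos]
      _ = m := Real.rpow_one _

theorem CoefData.h_div_le (H : CoefData a h A δ) {k : ℕ} (hk : 1 ≤ k) :
    ‖(h k : ℂ) / (k : ℂ)‖ ≤ A := by
  have hA : 0 ≤ A := zero_le_one.trans H.Aone
  have hm0 : (0 : ℝ) < k := by exact_mod_cast hk
  rw [norm_div, Complex.norm_natCast, Complex.norm_intCast, div_le_iff₀ hm0]
  refine (H.hh k hk).trans ?_
  apply mul_le_mul_of_nonneg_left _ hA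
  calc (k : ℝ) ^ (1 - δ) ≤ (k : ℝ) ^ (1 : ℝ) := by
        apply Real.rpow_le_rpow_of_exponent_le
        · exact_mod_cast hk
        · linarith [H.dpos]
    _ = k := Real.rpow_one _

theorem PP_norm (H : CoefData a h A δ) (Y : ℝ) (m : ℕ) :
    ‖((a m : ℂ) / (m : ℂ)) * (Real.exp (-2 * π * m * Y) : ℂ)‖ ≤
      A * Real.exp (-2 * π * m * Y) := by
  rw [norm_mul, Complex.norm_real, Real.norm_of_nonneg (Real.exp_pos _).le]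
  exact mul_le_mul_of_nonneg_right (H.a_div_le m) (Real.exp_pos _).le

theorem PP_summable (H : CoefData a h A δ) (q : ℕ) [NeZero q] {Y : ℝ} (hY : 0 < Y)
    (x : ℕ → ZMod q) : Summable (fun m : ℕ => ((a m : ℂ) / (m : ℂ)) *
      (Real.exp (-2 * π * m * Y) : ℂ) * (ZMod.stdAddChar (x m) : ℂ)) := by
  refine Summable.of_norm_bounded ((summable_exp hY).mul_left A) fun m => ?_
  rw [norm_mul, norm_std, mul_one]
  exact PP_norm H Y m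

theorem conj_PP (q : ℕ) [NeZero q] (Y : ℝ) (b : ZMod q) :
    (starRingEnd ℂ) (PP a q Y b) = PP a q Y (-b) := by
  rw [PP, PP, Complex.conj_tsum]
  refine tsum_congr fun m => ?_
  rw [map_mul, map_mul, map_div₀, conj_std, Complex.conj_ofReal, map_intCast, map_natCast]
  congr 2
  ring

/-- the Fourier coefficient of the main side -/
theorem fourier_PP (H : CoefData a h A δ) (q : ℕ) [NeZero q] {Y : ℝ} (hY : 0 < Y) (k : ℕ)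
    (u ζ : (ZMod q)ˣ) (hu : (u : ZMod q) = (k : ZMod q)) :
    ((h k : ℂ) / (k : ℂ)) * ((1 / (q : ℂ)) * ∑ b : (ZMod q)ˣ,
      (ZMod.stdAddChar (-((u⁻¹ : (ZMod q)ˣ) : ZMod q) * (b : ZMod q)) : ℂ) *
        PP a q Y ((ζ * b : (ZMod q)ˣ) : ZMod q)) =
      ∑' m : ℕ, TT a h q Y ((ζ⁻¹ : (ZMod q)ˣ) : ZMod q) k m := by
  have hsum : ∀ b : (ZMod q)ˣ, Summable (fun m : ℕ =>
      (ZMod.stdAddChar (-((u⁻¹ : (ZMod q)ˣ) : ZMod q) * (b : ZMod q)) : ℂ) *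
      (((a m : ℂ) / (m : ℂ)) * (Real.exp (-2 * π * m * Y) : ℂ) *
        ZMod.stdAddChar ((m : ZMod q) * ((ζ * b : (ZMod q)ˣ) : ZMod q)))) := fun b =>
    (PP_summable H q hY _).mul_left _
  have h1 : ∑ b : (ZMod q)ˣ,
      (ZMod.stdAddChar (-((u⁻¹ : (ZMod q)ˣ) : ZMod q) * (b : ZMod q)) : ℂ) *
        PP a q Y ((ζ * b : (ZMod q)ˣ) : ZMod q) =
      ∑' m : ℕ, ((a m : ℂ) / (m : ℂ)) * (Real.exp (-2 * π * m * Y) : ℂ) *
        RR q ((k : ZMod q) * (m : ZMod q) - ((ζ⁻¹ : (ZMod q)ˣ) : ZMod q)) := by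
    simp only [PP, ← tsum_mul_left]
    rw [← Summable.tsum_finsetSum fun b _ => hsum b]
    refine tsum_congr fun m => ?_
    have h2 : RR q ((k : ZMod q) * (m : ZMod q) - ((ζ⁻¹ : (ZMod q)ˣ) : ZMod q)) =
        RR q (-((u⁻¹ : (ZMod q)ˣ) : ZMod q) + (m : ZMod q) * (ζ : ZMod q)) := by
      rw [← RR_unit_mul q (ζ * u⁻¹) ((k : ZMod q) * (m : ZMod q) - ((ζ⁻¹ : (ZMod q)ˣ) : ZMod q))]
      congr 1
      rw [← hu, Units.val_mul]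
      have e1 : (ζ : ZMod q) * ((ζ⁻¹ : (ZMod q)ˣ) : ZMod q) = 1 := Units.mul_inv ζ
      have e2 : ((u⁻¹ : (ZMod q)ˣ) : ZMod q) * (u : ZMod q) = 1 := Units.inv_mul u
      linear_combination (m : ZMod q) * (ζ : ZMod q) * e2 - ((u⁻¹ : (ZMod q)ˣ) : ZMod q) * e1
    rw [h2, RR, mul_sum]
    refine sum_congr rfl fun b _ => ?_
    rw [add_mul, AddChar.map_add_eq_mul, Units.val_mul]
    have e3 : (m : ZMod q) * ((ζ : ZMod q) * (b : ZMod q)) = (m : ZMod q) * (ζ : ZMod q) * b := by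
      ring
    rw [e3]
    ring
  rw [h1, ← tsum_mul_left, ← tsum_mul_left]
  refine tsum_congr fun m => ?_
  rw [TT]
  field_simp

theorem neg_mem_HH {p : ℕ} (hp : p.Prime) (hp2 : p ≠ 2) (q : ℕ) [NeZero q] {ζ : (ZMod q)ˣ}
    (hζ : ζ ∈ HH p q) : -ζ ∈ HH p q := by
  rw [HH, mem_filter] at hζ ⊢
  refine ⟨mem_univ _, ?_⟩
  have heven : Even (p - 1) := by
    obtain ⟨m, hm⟩ := hp.odd_of_ne_two hp2
    exact ⟨m, by omega⟩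
  rw [heven.neg_pow]
  exact hζ.2

/-- the dual side -/
theorem dual_bound {p : ℕ} (hp : p.Prime) (hp2 : p ≠ 2) {ν q : ℕ} [NeZero q] (hν : 1 ≤ ν)
    (hq : q = p ^ (2 * ν)) (u : (ZMod q)ˣ) {γ : ℕ → ℂ} (hγ : Summable (fun m => ‖γ m‖))
    (s ζ : (ZMod q)ˣ) :
    ‖(1 / (q : ℂ)) * ∑ b : (ZMod q)ˣ, (ZMod.stdAddChar ((u : ZMod q) * (b : ZMod q)) : ℂ) *
      (((∑' m : ℕ, γ m * ZMod.stdAddChar ((m : ZMod q) *
        ((s * (ζ * b)⁻¹ : (ZMod q)ˣ) : ZMod q))).re : ℝ) : ℂ)‖ ≤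
      (∑' m : ℕ, ‖γ m‖) * (2 * (p : ℝ) ^ ν) / q := by
  have hq0 : (0 : ℝ) < q := by exact_mod_cast Nat.pos_of_ne_zero (NeZero.ne q)
  have h1 := kl_tsum hp hp2 hν hq u hγ
    (fun m => (m : ZMod q) * ((s * ζ⁻¹ : (ZMod q)ˣ) : ZMod q))
  have hγ' : Summable (fun m => ‖(starRingEnd ℂ) (γ m)‖) := by
    refine hγ.congr fun m => ?_
    rw [RCLike.norm_conj]
  have h2 := kl_tsum hp hp2 hν hq u hγ'
    (fun m => -((m : ZMod q) * ((s * ζ⁻¹ : (ZMod q)ˣ) : ZMod q)))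
  simp only [RCLike.norm_conj] at h2
  have h3 : ∀ b : (ZMod q)ˣ, (((∑' m : ℕ, γ m * ZMod.stdAddChar ((m : ZMod q) *
        ((s * (ζ * b)⁻¹ : (ZMod q)ˣ) : ZMod q))).re : ℝ) : ℂ) =
      (1 / 2) * ((∑' m : ℕ, γ m * ZMod.stdAddChar ((m : ZMod q) *
        ((s * ζ⁻¹ : (ZMod q)ˣ) : ZMod q) * ((b⁻¹ : (ZMod q)ˣ) : ZMod q))) +
        ∑' m : ℕ, (starRingEnd ℂ) (γ m) * ZMod.stdAddChar (-((m : ZMod q) *
        ((s * ζ⁻¹ : (ZMod q)ˣ) : ZMod q)) * ((b⁻¹ : (ZMod q)ˣ) : ZMod q))) := by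
    intro b
    have e1 : ∀ m : ℕ, (m : ZMod q) * ((s * (ζ * b)⁻¹ : (ZMod q)ˣ) : ZMod q) =
        (m : ZMod q) * ((s * ζ⁻¹ : (ZMod q)ˣ) : ZMod q) * ((b⁻¹ : (ZMod q)ˣ) : ZMod q) := by
      intro m
      rw [mul_inv, Units.val_mul, Units.val_mul, Units.val_mul]
      ring
    simp only [e1]
    rw [Complex.re_eq_add_conj, Complex.conj_tsum]
    have e2 : ∀ m : ℕ, (starRingEnd ℂ) (γ m * ZMod.stdAddChar ((m : ZMod q) *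
        ((s * ζ⁻¹ : (ZMod q)ˣ) : ZMod q) * ((b⁻¹ : (ZMod q)ˣ) : ZMod q))) =
        (starRingEnd ℂ) (γ m) * ZMod.stdAddChar (-((m : ZMod q) *
        ((s * ζ⁻¹ : (ZMod q)ˣ) : ZMod q)) * ((b⁻¹ : (ZMod q)ˣ) : ZMod q)) := by
      intro m
      rw [map_mul, conj_std, neg_mul]
    simp only [e2]
    ring
  simp only [h3]
  set X := ∑ b : (ZMod q)ˣ, (ZMod.stdAddChar ((u : ZMod q) * (b : ZMod q)) : ℂ) *
      ∑' m : ℕ, γ m * ZMod.stdAddChar ((m : ZMod q) *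
        ((s * ζ⁻¹ : (ZMod q)ˣ) : ZMod q) * ((b⁻¹ : (ZMod q)ˣ) : ZMod q)) with hX
  set X' := ∑ b : (ZMod q)ˣ, (ZMod.stdAddChar ((u : ZMod q) * (b : ZMod q)) : ℂ) *
      ∑' m : ℕ, (starRingEnd ℂ) (γ m) * ZMod.stdAddChar (-((m : ZMod q) *
        ((s * ζ⁻¹ : (ZMod q)ˣ) : ZMod q)) * ((b⁻¹ : (ZMod q)ˣ) : ZMod q)) with hX'
  have h4 : (1 / (q : ℂ)) * ∑ b : (ZMod q)ˣ,
      (ZMod.stdAddChar ((u : ZMod q) * (b : ZMod q)) : ℂ) *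
      ((1 / 2) * ((∑' m : ℕ, γ m * ZMod.stdAddChar ((m : ZMod q) *
        ((s * ζ⁻¹ : (ZMod q)ˣ) : ZMod q) * ((b⁻¹ : (ZMod q)ˣ) : ZMod q))) +
        ∑' m : ℕ, (starRingEnd ℂ) (γ m) * ZMod.stdAddChar (-((m : ZMod q) *
        ((s * ζ⁻¹ : (ZMod q)ˣ) : ZMod q)) * ((b⁻¹ : (ZMod q)ˣ) : ZMod q)))) =
      (1 / (q : ℂ)) * ((1 / 2) * (X + X')) := by
    congr 1
    rw [hX, hX', ← sum_add_distrib, mul_sum]
    refine sum_congr rfl fun b _ => ?_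
    ring
  rw [h4, norm_mul, norm_mul, norm_div, norm_div, norm_one, Complex.norm_natCast]
  have h5 : ‖(2 : ℂ)‖ = 2 := by norm_num
  rw [h5]
  have h6 := norm_add_le X X'
  rw [mul_comm (1 / (q : ℝ)), mul_one_div]
  apply div_le_div_of_nonneg_right _ hq0.le
  linarith

/-- **The core inequality.** -/
theorem core_ineq (H : CoefData a h A δ) {p : ℕ} (hp : p.Prime) (hp2 : p ≠ 2) {ν q : ℕ} [NeZero q]
    (hν : 1 ≤ ν) (hq : q = p ^ (2 * ν)) {K : ℕ} (hK : 1 ≤ K) {Y : ℝ} (hY : 0 < Y)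
    {γ : ℕ → ℂ} (hγ : Summable (fun m => ‖γ m‖)) (s : (ZMod q)ˣ) (F : (ZMod q)ˣ → ℝ)
    (hF : ∀ b : (ZMod q)ˣ, F b = (PP a q Y (b : ZMod q)).re -
      (∑' m : ℕ, γ m * ZMod.stdAddChar ((m : ZMod q) * ((s * b⁻¹ : (ZMod q)ˣ) : ZMod q))).re)
    (w : (ZMod q)ˣ → ℝ) (hw1 : w 1 = 1) (hwle : ∀ ζ ∈ HH p q, |w ζ| ≤ 1)
    (hweven : ∀ ζ, w (-ζ) = w ζ) (c : ℝ) (hc : ∀ b : (ZMod q)ˣ, ∑ ζ ∈ HH p q, w ζ * F (ζ * b) = c) :
    1 - 1 / (p : ℝ) ≤ ((p : ℝ) - 1) * (2 * π * A ^ 2 * (K : ℝ) ^ 3 * Y +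
        A ^ 3 * (K : ℝ) ^ (-(δ / 2)) +
        A ^ 2 * K * ((p : ℝ) ^ (2 * ν - 1)) ^ (-δ) * (1 + 1 / ((p : ℝ) ^ (2 * ν - 1) * Y))) +
      ((p : ℝ) - 1) * (A * K * ((∑' m : ℕ, ‖γ m‖) * (2 * (p : ℝ) ^ ν) / q)) := by
  have hn : 1 ≤ 2 * ν - 1 := by omega
  have hq' : q = p ^ ((2 * ν - 1) + 1) := by
    rw [hq]
    congr 1
    omega
  have hA : 0 ≤ A := zero_le_one.trans H.Aone
  have hq0 : (0 : ℝ) < q := by exact_mod_cast Nat.pos_of_ne_zero (NeZero.ne q)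
  have hp1 : (1 : ℝ) ≤ p := by exact_mod_cast hp.one_lt.le
  set S := (Icc 1 K).filter (fun k => ¬ p ∣ k) with hS
  have hSmem : ∀ k ∈ S, 1 ≤ k ∧ ¬ p ∣ k := by
    intro k hk
    rw [hS, mem_filter, mem_Icc] at hk
    exact ⟨hk.1.1, hk.2⟩
  have hcardS : (S.card : ℝ) ≤ K := by
    have : S.card ≤ (Icc 1 K).card := card_filter_le _ _
    rw [Nat.card_Icc, Nat.add_sub_cancel] at this
    exact_mod_cast this
  have hcardH : ((HH p q).card : ℝ) ≤ (p : ℝ) - 1 := by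
    have h1 := card_HH hp hp2 hq
    have h2 : ((HH p q).card : ℝ) ≤ ((p - 1 : ℕ) : ℝ) := by exact_mod_cast h1
    rwa [Nat.cast_sub hp.one_lt.le, Nat.cast_one] at h2
  have h1H : (1 : (ZMod q)ˣ) ∈ HH p q := by
    rw [HH, mem_filter]
    exact ⟨mem_univ _, one_pow _⟩
  -- the units
  set u : ℕ → (ZMod q)ˣ := fun k => if h : Nat.Coprime k q then ZMod.unitOfCoprime k h else 1
    with hudef
  have hu : ∀ k ∈ S, ((u k : (ZMod q)ˣ) : ZMod q) = (k : ZMod q) := by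
    intro k hk
    have hcop : Nat.Coprime k q := by
      rw [hq]
      exact (Nat.Coprime.pow_left _ ((Nat.Prime.coprime_iff_not_dvd hp).2 (hSmem k hk).2)).symm
    simp only [hudef, dif_pos hcop, ZMod.coe_unitOfCoprime]
  set χ : ℕ → (ZMod q)ˣ → ℂ := fun k b =>
    ZMod.stdAddChar (-(((u k)⁻¹ : (ZMod q)ˣ) : ZMod q) * (b : ZMod q)) with hχ
  set D : (ZMod q)ˣ → ℂ := fun b =>
    ∑' m : ℕ, γ m * ZMod.stdAddChar ((m : ZMod q) * ((s * b⁻¹ : (ZMod q)ˣ) : ZMod q)) with hD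
  -- (A)
  have hAA : ∀ k, (1 / (q : ℂ)) * ∑ b : (ZMod q)ˣ, χ k b *
      ((∑ ζ ∈ HH p q, w ζ * F (ζ * b) : ℝ) : ℂ) = 0 := by
    intro k
    simp only [hc]
    rw [← sum_mul]
    have h1 : ∑ b : (ZMod q)ˣ, χ k b = RR q ((-(u k)⁻¹ : (ZMod q)ˣ) : ZMod q) := by
      rw [RR]
      simp only [hχ, Units.val_neg]
    rw [h1, RR_unit_eq_zero hp hn hq']
    ring
  -- (B)
  have hBB : ∀ b : (ZMod q)ˣ, ((∑ ζ ∈ HH p q, w ζ * F (ζ * b) : ℝ) : ℂ) =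
      ∑ ζ ∈ HH p q, (w ζ : ℂ) * PP a q Y ((ζ * b : (ZMod q)ˣ) : ZMod q) -
      ∑ ζ ∈ HH p q, (w ζ : ℂ) * (((D (ζ * b)).re : ℝ) : ℂ) := by
    intro b
    have h1 : ∑ ζ ∈ HH p q, (w ζ : ℂ) * PP a q Y (-((ζ * b : (ZMod q)ˣ) : ZMod q)) =
        ∑ ζ ∈ HH p q, (w ζ : ℂ) * PP a q Y ((ζ * b : (ZMod q)ˣ) : ZMod q) := by
      refine sum_bij' (fun ζ _ => -ζ) (fun ζ _ => -ζ) ?_ ?_ ?_ ?_ ?_
      · intro ζ hζ; exact neg_mem_HH hp hp2 q hζ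
      · intro ζ hζ; exact neg_mem_HH hp hp2 q hζ
      · intro ζ _; exact neg_neg ζ
      · intro ζ _; exact neg_neg ζ
      · intro ζ _
        rw [hweven]
        congr 2
        rw [neg_mul, Units.val_neg]
    have h2 : ∀ ζ ∈ HH p q, ((w ζ * F (ζ * b) : ℝ) : ℂ) =
        (1 / 2) * ((w ζ : ℂ) * PP a q Y ((ζ * b : (ZMod q)ˣ) : ZMod q)) +
        (1 / 2) * ((w ζ : ℂ) * PP a q Y (-((ζ * b : (ZMod q)ˣ) : ZMod q))) -
        (w ζ : ℂ) * (((D (ζ * b)).re : ℝ) : ℂ) := by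
      intro ζ _
      rw [hF, ← conj_PP, Complex.ofReal_mul, Complex.ofReal_sub,
        Complex.re_eq_add_conj (PP a q Y ((ζ * b : (ZMod q)ˣ) : ZMod q))]
      simp only [hD]
      ring
    rw [Complex.ofReal_sum, sum_congr rfl h2, sum_sub_distrib, sum_add_distrib, ← mul_sum,
      ← mul_sum, h1]
    ring
  -- (C)
  have hCC : ∀ k ∈ S, ((h k : ℂ) / (k : ℂ)) * ((1 / (q : ℂ)) * ∑ b : (ZMod q)ˣ, χ k b *
      ∑ ζ ∈ HH p q, (w ζ : ℂ) * PP a q Y ((ζ * b : (ZMod q)ˣ) : ZMod q)) =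
      ∑ ζ ∈ HH p q, (w ζ : ℂ) * ∑' m : ℕ, TT a h q Y ((ζ⁻¹ : (ZMod q)ˣ) : ZMod q) k m := by
    intro k hk
    have h1 : ∀ ζ ∈ HH p q, (w ζ : ℂ) * ∑' m : ℕ, TT a h q Y ((ζ⁻¹ : (ZMod q)ˣ) : ZMod q) k m =
        (w ζ : ℂ) * (((h k : ℂ) / (k : ℂ)) * ((1 / (q : ℂ)) * ∑ b : (ZMod q)ˣ, χ k b *
          PP a q Y ((ζ * b : (ZMod q)ˣ) : ZMod q))) := by
      intro ζ _
      rw [← fourier_PP H q hY k (u k) ζ (hu k hk)]
    rw [sum_congr rfl h1]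
    simp only [mul_sum]
    rw [sum_comm]
    refine sum_congr rfl fun ζ _ => sum_congr rfl fun b _ => ?_
    ring
  -- (D)
  have hDD : ∀ k, ∀ ζ : (ZMod q)ˣ, ‖(1 / (q : ℂ)) * ∑ b : (ZMod q)ˣ, χ k b *
      (((D (ζ * b)).re : ℝ) : ℂ)‖ ≤ (∑' m : ℕ, ‖γ m‖) * (2 * (p : ℝ) ^ ν) / q := by
    intro k ζ
    have h1 := dual_bound hp hp2 hν hq (-(u k)⁻¹) hγ s ζ
    simp only [Units.val_neg] at h1
    exact h1
  -- the identity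
  have hid : ∑ ζ ∈ HH p q, (w ζ : ℂ) * ∑ k ∈ S, ∑' m : ℕ,
        TT a h q Y ((ζ⁻¹ : (ZMod q)ˣ) : ZMod q) k m =
      ∑ k ∈ S, ∑ ζ ∈ HH p q, ((h k : ℂ) / (k : ℂ)) * ((w ζ : ℂ) * ((1 / (q : ℂ)) *
        ∑ b : (ZMod q)ˣ, χ k b * (((D (ζ * b)).re : ℝ) : ℂ))) := by
    have h1 : ∀ k ∈ S, ∑ ζ ∈ HH p q, (w ζ : ℂ) *
        ∑' m : ℕ, TT a h q Y ((ζ⁻¹ : (ZMod q)ˣ) : ZMod q) k m =
        ∑ ζ ∈ HH p q, ((h k : ℂ) / (k : ℂ)) * ((w ζ : ℂ) * ((1 / (q : ℂ)) *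
          ∑ b : (ZMod q)ˣ, χ k b * (((D (ζ * b)).re : ℝ) : ℂ))) := by
      intro k hk
      rw [← hCC k hk]
      have h2 := hAA k
      simp only [hBB, mul_sub, sum_sub_distrib] at h2
      have h3 : (1 / (q : ℂ)) * ∑ b : (ZMod q)ˣ, χ k b *
          ∑ ζ ∈ HH p q, (w ζ : ℂ) * PP a q Y ((ζ * b : (ZMod q)ˣ) : ZMod q) =
          (1 / (q : ℂ)) * ∑ b : (ZMod q)ˣ, χ k b *
          ∑ ζ ∈ HH p q, (w ζ : ℂ) * (((D (ζ * b)).re : ℝ) : ℂ) := by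
        linear_combination h2
      rw [h3]
      simp only [mul_sum]
      rw [sum_comm]
      refine sum_congr rfl fun ζ _ => sum_congr rfl fun b _ => ?_
      ring
    rw [← sum_congr rfl h1, sum_comm]
    refine sum_congr rfl fun ζ _ => ?_
    rw [mul_sum]
  -- estimates
  set ε₁ : ℝ := 2 * π * A ^ 2 * (K : ℝ) ^ 3 * Y + A ^ 3 * (K : ℝ) ^ (-(δ / 2)) +
        A ^ 2 * K * ((p : ℝ) ^ (2 * ν - 1)) ^ (-δ) * (1 + 1 / ((p : ℝ) ^ (2 * ν - 1) * Y)) with hε₁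
  set ε₂ : ℝ := (∑' m : ℕ, ‖γ m‖) * (2 * (p : ℝ) ^ ν) / q with hε₂
  have hε₁0 : 0 ≤ ε₁ := by
    have := Real.pi_pos
    positivity
  have hε₂0 : 0 ≤ ε₂ := by
    have : 0 ≤ ∑' m : ℕ, ‖γ m‖ := tsum_nonneg fun m => norm_nonneg _
    positivity
  have hmain : ‖∑ ζ ∈ HH p q, (w ζ : ℂ) * ∑ k ∈ S, ∑' m : ℕ,
        TT a h q Y ((ζ⁻¹ : (ZMod q)ˣ) : ZMod q) k m - (1 - 1 / (p : ℂ))‖ ≤ ((p : ℝ) - 1) * ε₁ := by
    have h1 : (1 - 1 / (p : ℂ)) = ∑ ζ ∈ HH p q, (w ζ : ℂ) *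
        (if ζ⁻¹ = 1 then 1 - 1 / (p : ℂ) else 0) := by
      rw [sum_eq_single 1]
      · rw [inv_one, if_pos rfl, hw1, Complex.ofReal_one, one_mul]
      · intro ζ _ hne
        rw [if_neg (by rwa [inv_eq_one]), mul_zero]
      · intro h0; exact absurd h1H h0
    rw [h1, ← sum_sub_distrib]
    refine (norm_sum_le _ _).trans ?_
    have h2 : ∀ ζ ∈ HH p q, ‖(w ζ : ℂ) * ∑ k ∈ S, ∑' m : ℕ,
        TT a h q Y ((ζ⁻¹ : (ZMod q)ˣ) : ZMod q) k m -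
        (w ζ : ℂ) * (if ζ⁻¹ = 1 then 1 - 1 / (p : ℂ) else 0)‖ ≤ ε₁ := by
      intro ζ hζ
      have hζ' : (ζ⁻¹) ^ (p - 1) = 1 := by
        rw [HH, mem_filter] at hζ
        rw [inv_pow, hζ.2, inv_one]
      have h3 := main_term H hp hn hq' hK hY ζ⁻¹ hζ'
      rw [← mul_sub, norm_mul, Complex.norm_real, Real.norm_eq_abs]
      calc |w ζ| * _ ≤ 1 * ε₁ := mul_le_mul (hwle ζ hζ) h3 (norm_nonneg _) zero_le_one
        _ = ε₁ := one_mul _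
    refine (sum_le_sum h2).trans ?_
    rw [sum_const, nsmul_eq_mul]
    exact mul_le_mul_of_nonneg_right hcardH hε₁0
  have hdual : ‖∑ k ∈ S, ∑ ζ ∈ HH p q, ((h k : ℂ) / (k : ℂ)) * ((w ζ : ℂ) * ((1 / (q : ℂ)) *
        ∑ b : (ZMod q)ˣ, χ k b * (((D (ζ * b)).re : ℝ) : ℂ)))‖ ≤
      ((p : ℝ) - 1) * (A * K * ε₂) := by
    refine (norm_sum_le _ _).trans ?_
    have h1 : ∀ k ∈ S, ‖∑ ζ ∈ HH p q, ((h k : ℂ) / (k : ℂ)) * ((w ζ : ℂ) * ((1 / (q : ℂ)) *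
        ∑ b : (ZMod q)ˣ, χ k b * (((D (ζ * b)).re : ℝ) : ℂ)))‖ ≤ ((p : ℝ) - 1) * (A * ε₂) := by
      intro k hk
      refine (norm_sum_le _ _).trans ?_
      have h2 : ∀ ζ ∈ HH p q, ‖((h k : ℂ) / (k : ℂ)) * ((w ζ : ℂ) * ((1 / (q : ℂ)) *
        ∑ b : (ZMod q)ˣ, χ k b * (((D (ζ * b)).re : ℝ) : ℂ)))‖ ≤ A * ε₂ := by
        intro ζ hζ
        rw [norm_mul, norm_mul, Complex.norm_real, Real.norm_eq_abs]
        have h3 := H.h_div_le (hSmem k hk).1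
        have h4 := hDD k ζ
        have h5 : |w ζ| * ‖(1 / (q : ℂ)) *
            ∑ b : (ZMod q)ˣ, χ k b * (((D (ζ * b)).re : ℝ) : ℂ)‖ ≤ 1 * ε₂ :=
          mul_le_mul (hwle ζ hζ) h4 (norm_nonneg _) zero_le_one
        rw [one_mul] at h5
        exact mul_le_mul h3 h5 (by positivity) hA
      refine (sum_le_sum h2).trans ?_
      rw [sum_const, nsmul_eq_mul]
      exact mul_le_mul_of_nonneg_right hcardH (mul_nonneg hA hε₂0)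
    refine (sum_le_sum h1).trans ?_
    rw [sum_const, nsmul_eq_mul]
    have h6 : 0 ≤ ((p : ℝ) - 1) * (A * ε₂) :=
      mul_nonneg (by linarith) (mul_nonneg hA hε₂0)
    calc (S.card : ℝ) * (((p : ℝ) - 1) * (A * ε₂)) ≤ K * (((p : ℝ) - 1) * (A * ε₂)) :=
          mul_le_mul_of_nonneg_right hcardS h6
      _ = _ := by ring
  rw [hid] at hmain
  set X := ∑ k ∈ S, ∑ ζ ∈ HH p q, ((h k : ℂ) / (k : ℂ)) * ((w ζ : ℂ) * ((1 / (q : ℂ)) *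
        ∑ b : (ZMod q)ˣ, χ k b * (((D (ζ * b)).re : ℝ) : ℂ)))
  have h7 : ‖(1 - 1 / (p : ℂ))‖ ≤ ((p : ℝ) - 1) * ε₁ + ((p : ℝ) - 1) * (A * K * ε₂) := by
    calc ‖(1 - 1 / (p : ℂ))‖ = ‖X - (X - (1 - 1 / (p : ℂ)))‖ := by congr 1; ring
      _ ≤ ‖X‖ + ‖X - (1 - 1 / (p : ℂ))‖ := norm_sub_le _ _
      _ ≤ _ := by linarith
  have h8 : ‖(1 - 1 / (p : ℂ))‖ = 1 - 1 / (p : ℝ) := by
    have : (1 - 1 / (p : ℂ)) = ((1 - 1 / (p : ℝ) : ℝ) : ℂ) := by push_cast; rfl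
    rw [this, Complex.norm_real, Real.norm_of_nonneg]
    rw [sub_nonneg, div_le_one (by linarith)]
    exact hp1
  rw [h8] at h7
  exact h7

end Pool.Agent.MU71
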