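import Pool.Agent.MU71.Defs
import Pool.Agent.MU1.Kl2

/-!
# The main term
-/

set_option autoImplicit false

open Finset
open scoped Real

namespace Pool.Agent.MU71

open Pool.Agent.MU1

variable {a h : ℕ → ℤ} {A δ : ℝ}

/-- one term -/
noncomputable def TT (a h : ℕ → ℤ) (q : ℕ) [NeZero q] (Y : ℝ) (ζ : ZMod q) (k m : ℕ) : ℂ :=
  ((h k : ℂ) * (a m : ℂ) / ((k : ℂ) * (m : ℂ))) * (Real.exp (-2 * π * m * Y) : ℂ) *
    (RR q ((k : ZMod q) * (m : ZMod q) - ζ) / (q : ℂ))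

theorem CoefData.coef_le (H : CoefData a h A δ) {k m : ℕ} (hk : 1 ≤ k) (hm : 1 ≤ m) :
    ‖(h k : ℂ) * (a m : ℂ) / ((k : ℂ) * (m : ℂ))‖ ≤ A ^ 2 * ((k * m : ℕ) : ℝ) ^ (-δ) := by
  have hk0 : (0 : ℝ) < k := by exact_mod_cast hk
  have hm0 : (0 : ℝ) < m := by exact_mod_cast hm
  have h1 := H.hh k hk
  have h2 := H.ha m hm
  have hA : 0 ≤ A := zero_le_one.trans H.Aone
  rw [norm_div, norm_mul, norm_mul, Complex.norm_natCast, Complex.norm_natCast,
    Complex.norm_intCast, Complex.norm_intCast, div_le_iff₀ (by positivity)]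
  have h3 : |(h k : ℝ)| * |(a m : ℝ)| ≤ (A * (k : ℝ) ^ (1 - δ)) * (A * (m : ℝ) ^ (1 - δ)) :=
    mul_le_mul h1 h2 (abs_nonneg _) (by positivity)
  refine h3.trans (le_of_eq ?_)
  rw [Nat.cast_mul, Real.mul_rpow hk0.le hm0.le, Real.rpow_sub hk0, Real.rpow_sub hm0,
    Real.rpow_one, Real.rpow_one, Real.rpow_neg hk0.le, Real.rpow_neg hm0.le]
  have := (Real.rpow_pos_of_pos hk0 δ).ne'
  have := (Real.rpow_pos_of_pos hm0 δ).ne'
  field_simp

theorem RR_div_norm_le (q : ℕ) [NeZero q] (y : ZMod q) : ‖RR q y / (q : ℂ)‖ ≤ 1 := by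
  have hq : (0 : ℝ) < q := by exact_mod_cast Nat.pos_of_ne_zero (NeZero.ne q)
  rw [norm_div, Complex.norm_natCast, div_le_one hq]
  exact RR_norm_le q y

theorem TT_zero (q : ℕ) [NeZero q] (Y : ℝ) (ζ : ZMod q) (k : ℕ) :
    TT a h q Y ζ k 0 = 0 := by
  simp [TT]

theorem TT_norm_le (H : CoefData a h A δ) (q : ℕ) [NeZero q] (Y : ℝ) (ζ : ZMod q) {k m : ℕ}
    (hk : 1 ≤ k) (hm : 1 ≤ m) :
    ‖TT a h q Y ζ k m‖ ≤ A ^ 2 * ((k * m : ℕ) : ℝ) ^ (-δ) * Real.exp (-2 * π * m * Y) := by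
  rw [TT, norm_mul, norm_mul, Complex.norm_real, Real.norm_of_nonneg (Real.exp_pos _).le]
  have h1 := H.coef_le hk hm
  have h2 := RR_div_norm_le q ((k : ZMod q) * (m : ZMod q) - ζ)
  have h3 : 0 ≤ A ^ 2 * ((k * m : ℕ) : ℝ) ^ (-δ) := by positivity
  calc ‖(h k : ℂ) * (a m : ℂ) / ((k : ℂ) * (m : ℂ))‖ * Real.exp (-2 * π * m * Y) *
        ‖RR q ((k : ZMod q) * (m : ZMod q) - ζ) / (q : ℂ)‖
      ≤ (A ^ 2 * ((k * m : ℕ) : ℝ) ^ (-δ) * Real.exp (-2 * π * m * Y)) * 1 := by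
        refine mul_le_mul ?_ h2 (norm_nonneg _) (by positivity)
        exact mul_le_mul_of_nonneg_right h1 (Real.exp_pos _).le
    _ = _ := mul_one _

theorem TT_norm_le' (H : CoefData a h A δ) (q : ℕ) [NeZero q] (Y : ℝ) (ζ : ZMod q) {k : ℕ}
    (hk : 1 ≤ k) (m : ℕ) : ‖TT a h q Y ζ k m‖ ≤ A ^ 2 * Real.exp (-2 * π * m * Y) := by
  rcases Nat.eq_zero_or_pos m with h0 | hm
  · subst h0
    rw [TT_zero, norm_zero]
    positivity
  · refine (TT_norm_le H q Y ζ hk hm).trans ?_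
    refine mul_le_mul_of_nonneg_right ?_ (Real.exp_pos _).le
    refine mul_le_of_le_one_right (by positivity) ?_
    apply Real.rpow_le_one_of_one_le_of_nonpos
    · exact_mod_cast Nat.mul_pos hk hm
    · linarith [H.dpos]

theorem summable_exp {Y : ℝ} (hY : 0 < Y) : Summable (fun m : ℕ => Real.exp (-2 * π * m * Y)) := by
  have h1 : ∀ m : ℕ, Real.exp (-2 * π * m * Y) = (Real.exp (-2 * π * Y)) ^ m := by
    intro m
    rw [← Real.exp_nat_mul]
    congr 1
    ring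
  simp only [h1]
  apply summable_geometric_of_lt_one (Real.exp_pos _).le
  rw [Real.exp_lt_one_iff]
  have := Real.pi_pos
  nlinarith [mul_pos this hY]

theorem TT_summable (H : CoefData a h A δ) (q : ℕ) [NeZero q] {Y : ℝ} (hY : 0 < Y) (ζ : ZMod q)
    {k : ℕ} (hk : 1 ≤ k) : Summable (TT a h q Y ζ k) :=
  Summable.of_norm_bounded ((summable_exp hY).mul_left (A ^ 2)) (TT_norm_le' H q Y ζ hk)

/-- a residue class -/
theorem class_sum_le {D : ℕ} (hD : 0 < D) {Y : ℝ} (hY : 0 < Y) (P : ℕ → Prop) [DecidablePred P]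
    (hP : ∀ m m', P m → P m' → m % D = m' % D) :
    ∑' m : ℕ, (if P m then Real.exp (-2 * π * m * Y) else 0) ≤ 1 + 1 / (D * Y) := by
  have hπ := Real.pi_gt_three
  have hDr : (0 : ℝ) < D := by exact_mod_cast hD
  set t : ℝ := 2 * π * D * Y with ht
  have ht0 : 0 < t := by positivity
  have h1 : ∑' m : ℕ, (if P m then Real.exp (-2 * π * m * Y) else 0) =
      ∑' m : {m // P m}, Real.exp (-2 * π * (m : ℕ) * Y) := by
    have := tsum_subtype {m | P m} (fun m : ℕ => Real.exp (-2 * π * m * Y))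
    simp only [Set.indicator_apply, Set.mem_ofPred_eq] at this
    exact this.symm
  have hgeo : Summable (fun j : ℕ => Real.exp (-2 * π * j * (D * Y))) :=
    summable_exp (by positivity)
  have hs : Summable (fun m : {m // P m} => Real.exp (-2 * π * (m : ℕ) * Y)) :=
    (summable_exp hY).comp_injective Subtype.val_injective
  have h2 : ∑' m : {m // P m}, Real.exp (-2 * π * (m : ℕ) * Y) ≤
      ∑' j : ℕ, Real.exp (-2 * π * j * (D * Y)) := by
    refine hs.tsum_le_tsum_of_inj (fun m : {m // P m} => (m : ℕ) / D) ?_ ?_ ?_ hgeo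
    · intro x y hxy
      apply Subtype.ext
      have h3 := hP x y x.2 y.2
      have h4 : (x : ℕ) / D = (y : ℕ) / D := hxy
      rw [← Nat.div_add_mod (x : ℕ) D, ← Nat.div_add_mod (y : ℕ) D, h3, h4]
    · intro c _
      positivity
    · intro x
      apply Real.exp_le_exp.2
      have h5 : (((x : ℕ) / D : ℕ) : ℝ) * D ≤ (x : ℕ) := by
        exact_mod_cast Nat.div_mul_le_self (x : ℕ) D
      have h6 : 0 ≤ 2 * π * Y := by positivity
      nlinarith [mul_le_mul_of_nonneg_left h5 h6]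
  rw [h1]
  refine h2.trans ?_
  have h3 : ∀ j : ℕ, Real.exp (-2 * π * j * (D * Y)) = (Real.exp (-t)) ^ j := by
    intro j
    rw [← Real.exp_nat_mul]
    congr 1
    rw [ht]
    ring
  simp only [h3]
  have hlt : Real.exp (-t) < 1 := by
    rw [Real.exp_lt_one_iff]
    linarith
  rw [tsum_geometric_of_lt_one (Real.exp_pos _).le hlt]
  have h4 : 1 + t ≤ Real.exp t := by linarith [Real.add_one_le_exp t]
  have h5 : Real.exp (-t) ≤ 1 / (1 + t) := by
    rw [Real.exp_neg, ← one_div]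
    exact one_div_le_one_div_of_le (by linarith) h4
  have h6 : t / (1 + t) ≤ 1 - Real.exp (-t) := by
    have : t / (1 + t) = 1 - 1 / (1 + t) := by field_simp; ring
    linarith
  have h7 : (1 - Real.exp (-t))⁻¹ ≤ (t / (1 + t))⁻¹ :=
    inv_anti₀ (by positivity) h6
  have h8 : (t / (1 + t))⁻¹ = 1 + 1 / t := by
    field_simp
    ring
  have h9 : 1 / t ≤ 1 / (D * Y) := by
    apply one_div_le_one_div_of_le (by positivity)
    rw [ht]
    nlinarith [mul_pos hDr hY]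
  linarith

/-- the congruence -/
theorem cong_of {p : ℕ} (hp : p.Prime) {n q : ℕ} [NeZero q] (hq : q = p ^ (n + 1)) (ζ : ZMod q)
    (x : ℕ) (hx : (p : ZMod q) * ((x : ZMod q) - ζ) = 0) : x % p ^ n = ζ.val % p ^ n := by
  have h1 : (((p : ℤ) * ((x : ℤ) - (ζ.val : ℤ)) : ℤ) : ZMod q) = 0 := by
    push_cast
    rw [ZMod.natCast_zmod_val]
    exact hx
  have hqz : (q : ℤ) = (p : ℤ) ^ (n + 1) := by exact_mod_cast hq
  rw [ZMod.intCast_zmod_eq_zero_iff_dvd, hqz, pow_succ'] at h1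
  have hp0 : (p : ℤ) ≠ 0 := by exact_mod_cast hp.ne_zero
  have h2 := (mul_dvd_mul_iff_left hp0).1 h1
  have h3 : (ζ.val : ℤ) ≡ (x : ℤ) [ZMOD ((p ^ n : ℕ) : ℤ)] := by
    rw [Int.modEq_iff_dvd]
    exact_mod_cast h2
  exact (Int.natCast_modEq_iff.1 h3).symm

/-- the residue of `ζ` -/
theorem not_dvd_resid {p : ℕ} (hp : p.Prime) {n q : ℕ} [NeZero q] (hn : 1 ≤ n)
    (hq : q = p ^ (n + 1)) (ζ : (ZMod q)ˣ) : ¬ p ∣ (ζ : ZMod q).val % p ^ n := by
  intro hd
  have h1 : p ∣ (ζ : ZMod q).val := by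
    rw [← Nat.mod_add_div (ζ : ZMod q).val (p ^ n)]
    exact dvd_add hd ((dvd_pow_self p (by omega)).mul_right _)
  have h2 := ZMod.val_coe_unit_coprime ζ
  have h3 : p ∣ q := by
    rw [hq]
    exact dvd_pow_self p (by omega)
  have h4 := Nat.dvd_gcd h1 h3
  rw [Nat.Coprime] at h2
  rw [h2] at h4
  exact hp.one_lt.ne' (Nat.dvd_one.1 h4)

theorem resid_eq_one {p : ℕ} (hp : p.Prime) {n q : ℕ} [NeZero q] (hn : 1 ≤ n)
    (hq : q = p ^ (n + 1)) (ζ : (ZMod q)ˣ) (hζ : ζ ^ (p - 1) = 1) :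
    (ζ : ZMod q).val % p ^ n = 1 ↔ ζ = 1 := by
  have hq1 : 1 < q := by
    rw [hq]
    exact Nat.one_lt_pow (by omega) hp.one_lt
  have hF : Fact (1 < q) := ⟨hq1⟩
  have hD1 : 1 < p ^ n := Nat.one_lt_pow (by omega) hp.one_lt
  constructor
  · intro h
    have h1 : (ζ : ZMod q) = 1 := by
      apply resid_inj hp hq
      · rw [← Units.val_pow_eq_pow_val, hζ, Units.val_one]
      · exact one_pow _
      · rw [ZMod.val_one, ZMod.natCast_eq_natCast_iff]
        have h2 : (ζ : ZMod q).val ≡ 1 [MOD p ^ n] := by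
          rw [Nat.ModEq, h, Nat.mod_eq_of_lt hD1]
        exact h2.of_dvd (dvd_pow_self p (by omega))
    exact Units.ext h1
  · rintro rfl
    rw [Units.val_one, ZMod.val_one, Nat.mod_eq_of_lt hD1]

/-- the contribution of the small values of `k m` -/
theorem head_bound (H : CoefData a h A δ) {p : ℕ} (hp : p.Prime) {n q : ℕ} [NeZero q] (hn : 1 ≤ n)
    (hq : q = p ^ (n + 1)) {K : ℕ} (hK : 1 ≤ K) {Y : ℝ} (hY : 0 < Y) (ζ : (ZMod q)ˣ)
    (hζ : ζ ^ (p - 1) = 1) :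
    ‖∑ k ∈ (Icc 1 K).filter (fun k => ¬ p ∣ k),
        (if k ∣ (ζ : ZMod q).val % p ^ n then
          TT a h q Y (ζ : ZMod q) k (((ζ : ZMod q).val % p ^ n) / k) else 0) -
        (if ζ = 1 then 1 - 1 / (p : ℂ) else 0)‖ ≤
      2 * π * A ^ 2 * (K : ℝ) ^ 3 * Y + A ^ 3 * (K : ℝ) ^ (-(δ / 2)) := by
  have hπ := Real.pi_pos
  have hA : 0 ≤ A := zero_le_one.trans H.Aone
  have hKr : (1 : ℝ) ≤ K := by exact_mod_cast hK
  set x := (ζ : ZMod q).val % p ^ n with hx
  have hpx : ¬ p ∣ x := not_dvd_resid hp hn hq ζ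
  have hx1 : x = 1 ↔ ζ = 1 := resid_eq_one hp hn hq ζ hζ
  have hx0 : 0 < x := Nat.pos_of_ne_zero fun h0 => hpx (h0 ▸ dvd_zero p)
  have hxr : (0 : ℝ) < x := by exact_mod_cast hx0
  have hxc : (x : ℂ) ≠ 0 := by exact_mod_cast hx0.ne'
  set R : ℂ := RR q ((x : ZMod q) - (ζ : ZMod q)) / (q : ℂ) with hR
  have hRn : ‖R‖ ≤ 1 := RR_div_norm_le q _
  -- the divisors
  set S := (Icc 1 K).filter (fun k => ¬ p ∣ k) with hS
  have hTT : ∀ k ∈ x.divisors, TT a h q Y (ζ : ZMod q) k (x / k) =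
      R / x * ((h k : ℂ) * (a (x / k) : ℂ) * (Real.exp (-2 * π * (x / k : ℕ) * Y) : ℂ)) := by
    intro k hk
    have hkx := Nat.dvd_of_mem_divisors hk
    have h1 : k * (x / k) = x := Nat.mul_div_cancel' hkx
    have h2 : (k : ZMod q) * ((x / k : ℕ) : ZMod q) = (x : ZMod q) := by
      rw [← Nat.cast_mul, h1]
    have h3 : (k : ℂ) * ((x / k : ℕ) : ℂ) = (x : ℂ) := by
      rw [← Nat.cast_mul, h1]
    rw [TT, h2, h3, ← hR]
    ring
  have hsub : S.filter (fun k => k ∣ x) ⊆ x.divisors := by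
    intro k hk
    rw [mem_filter] at hk
    exact Nat.mem_divisors.2 ⟨hk.2, hx0.ne'⟩
  have hsum : ∑ k ∈ S, (if k ∣ x then TT a h q Y (ζ : ZMod q) k (x / k) else 0) =
      ∑ k ∈ S.filter (fun k => k ∣ x), TT a h q Y (ζ : ZMod q) k (x / k) :=
    (sum_filter _ _).symm
  rw [hsum]
  have hcard : (x.divisors.card : ℝ) ≤ x := by exact_mod_cast Nat.card_divisors_le_self x
  have hpair : ∀ k ∈ x.divisors, |(h k : ℝ)| * |(a (x / k) : ℝ)| ≤ A ^ 2 * (x : ℝ) ^ (1 - δ) := by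
    intro k hk
    have hkx := Nat.dvd_of_mem_divisors hk
    have h1 : k * (x / k) = x := Nat.mul_div_cancel' hkx
    have hk0 : 1 ≤ k := Nat.pos_of_mem_divisors hk
    have hm0 : 1 ≤ x / k := Nat.div_pos (Nat.le_of_dvd hx0 hkx) hk0
    have h2 : |(h k : ℝ)| * |(a (x / k) : ℝ)| ≤
        (A * (k : ℝ) ^ (1 - δ)) * (A * ((x / k : ℕ) : ℝ) ^ (1 - δ)) :=
      mul_le_mul (H.hh k hk0) (H.ha _ hm0) (abs_nonneg _) (by positivity)
    refine h2.trans (le_of_eq ?_)
    have h3 : (x : ℝ) = (k : ℝ) * ((x / k : ℕ) : ℝ) := by exact_mod_cast h1.symm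
    calc A * (k : ℝ) ^ (1 - δ) * (A * ((x / k : ℕ) : ℝ) ^ (1 - δ)) =
        A ^ 2 * ((k : ℝ) ^ (1 - δ) * ((x / k : ℕ) : ℝ) ^ (1 - δ)) := by ring
      _ = A ^ 2 * ((k : ℝ) * ((x / k : ℕ) : ℝ)) ^ (1 - δ) := by
          rw [Real.mul_rpow (by positivity) (by positivity)]
      _ = _ := by rw [← h3]
  rcases le_or_gt x K with hxK | hxK
  · -- all divisors occur
    have hSd : S.filter (fun k => k ∣ x) = x.divisors := by
      apply subset_antisymm hsub
      intro k hk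
      have hkx := Nat.dvd_of_mem_divisors hk
      rw [mem_filter, hS, mem_filter, mem_Icc]
      refine ⟨⟨⟨Nat.pos_of_mem_divisors hk, (Nat.le_of_dvd hx0 hkx).trans hxK⟩, ?_⟩, hkx⟩
      intro hpk
      exact hpx (hpk.trans hkx)
    have hconv := H.conv x hx0
    have hconvC : ∑ k ∈ x.divisors, (h k : ℂ) * (a (x / k) : ℂ) = if x = 1 then 1 else 0 := by
      have := congrArg (fun z : ℤ => (z : ℂ)) hconv
      push_cast at this
      rw [this]
    have hmain : (if ζ = 1 then 1 - 1 / (p : ℂ) else 0) =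
        R / x * ∑ k ∈ x.divisors, (h k : ℂ) * (a (x / k) : ℂ) := by
      rw [hconvC]
      by_cases hz : ζ = 1
      · have hx1' := hx1.2 hz
        rw [if_pos hz, if_pos hx1', hR, hx1', hz]
        simp only [Nat.cast_one, Units.val_one, sub_self, mul_one, div_one]
        rw [RR_zero, hq, Nat.totient_prime_pow_succ hp, Nat.cast_mul, Nat.cast_sub hp.one_lt.le]
        have hpc : (p : ℂ) ≠ 0 := by exact_mod_cast hp.ne_zero
        push_cast
        field_simp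
        ring
      · rw [if_neg hz, if_neg (fun h => hz (hx1.1 h)), mul_zero]
    rw [hSd, sum_congr rfl hTT, hmain, ← mul_sum, ← mul_sub, ← sum_sub_distrib]
    have hb : ‖∑ k ∈ x.divisors, ((h k : ℂ) * (a (x / k) : ℂ) *
        (Real.exp (-2 * π * (x / k : ℕ) * Y) : ℂ) - (h k : ℂ) * (a (x / k) : ℂ))‖ ≤
        x * (A ^ 2 * x * (2 * π * x * Y)) := by
      refine (norm_sum_le _ _).trans ?_
      have hterm : ∀ k ∈ x.divisors, ‖(h k : ℂ) * (a (x / k) : ℂ) *
          (Real.exp (-2 * π * (x / k : ℕ) * Y) : ℂ) - (h k : ℂ) * (a (x / k) : ℂ)‖ ≤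
          A ^ 2 * x * (2 * π * x * Y) := by
        intro k hk
        have e1 : (h k : ℂ) * (a (x / k) : ℂ) *
          (Real.exp (-2 * π * (x / k : ℕ) * Y) : ℂ) - (h k : ℂ) * (a (x / k) : ℂ) =
          ((h k : ℂ) * (a (x / k) : ℂ)) * ((Real.exp (-2 * π * (x / k : ℕ) * Y) - 1 : ℝ) : ℂ) := by
          push_cast
          ring
        rw [e1, norm_mul, norm_mul, Complex.norm_intCast, Complex.norm_intCast, Complex.norm_real,
          Real.norm_eq_abs]
        have e2 := hpair k hk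
        have e3 : (x : ℝ) ^ (1 - δ) ≤ x := by
          calc (x : ℝ) ^ (1 - δ) ≤ (x : ℝ) ^ (1 : ℝ) := by
                apply Real.rpow_le_rpow_of_exponent_le
                · exact_mod_cast hx0
                · linarith [H.dpos]
            _ = x := Real.rpow_one _
        have e4 : |Real.exp (-2 * π * (x / k : ℕ) * Y) - 1| ≤ 2 * π * x * Y := by
          have h5 : (((x / k : ℕ)) : ℝ) ≤ x := by exact_mod_cast Nat.div_le_self x k
          have h6 : 0 ≤ 2 * π * (x / k : ℕ) * Y := by positivity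
          have h7 : Real.exp (-2 * π * (x / k : ℕ) * Y) ≤ 1 := by
            rw [Real.exp_le_one_iff]
            nlinarith
          have h8 := Real.add_one_le_exp (-2 * π * (x / k : ℕ) * Y)
          rw [abs_of_nonpos (by linarith)]
          have h9 : 2 * π * (x / k : ℕ) * Y ≤ 2 * π * x * Y := by
            apply mul_le_mul_of_nonneg_right _ hY.le
            apply mul_le_mul_of_nonneg_left h5 (by positivity)
          linarith
        refine mul_le_mul (e2.trans ?_) e4 (abs_nonneg _) (by positivity)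
        exact mul_le_mul_of_nonneg_left e3 (by positivity)
      refine (sum_le_sum hterm).trans ?_
      rw [sum_const, nsmul_eq_mul]
      exact mul_le_mul_of_nonneg_right hcard (by positivity)
    have hxKr : (x : ℝ) ≤ K := by exact_mod_cast hxK
    rw [norm_mul, norm_div, Complex.norm_natCast]
    have hfin : ‖R‖ / (x : ℝ) * ‖∑ k ∈ x.divisors, ((h k : ℂ) * (a (x / k) : ℂ) *
        (Real.exp (-2 * π * (x / k : ℕ) * Y) : ℂ) - (h k : ℂ) * (a (x / k) : ℂ))‖ ≤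
        1 / x * (x * (A ^ 2 * x * (2 * π * x * Y))) := by
      refine mul_le_mul ?_ hb (norm_nonneg _) (by positivity)
      exact div_le_div_of_nonneg_right hRn hxr.le
    refine hfin.trans ?_
    have e5 : 1 / (x : ℝ) * (x * (A ^ 2 * x * (2 * π * x * Y))) = 2 * π * A ^ 2 * x ^ 2 * Y := by
      field_simp
    rw [e5]
    have e6 : (x : ℝ) ^ 2 ≤ (K : ℝ) ^ 3 := by
      calc (x : ℝ) ^ 2 ≤ (K : ℝ) ^ 2 := by gcongr
        _ ≤ (K : ℝ) ^ 3 := pow_le_pow_right₀ hKr (by norm_num)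
    have e7 : 2 * π * A ^ 2 * (x : ℝ) ^ 2 * Y ≤ 2 * π * A ^ 2 * (K : ℝ) ^ 3 * Y := by
      gcongr
    have e8 : 0 ≤ A ^ 3 * (K : ℝ) ^ (-(δ / 2)) := by positivity
    linarith
  · have hz : ζ ≠ 1 := by
      intro hz
      have := hx1.2 hz
      omega
    rw [if_neg hz, sub_zero]
    refine (norm_sum_le _ _).trans ?_
    have hterm : ∀ k ∈ S.filter (fun k => k ∣ x), ‖TT a h q Y (ζ : ZMod q) k (x / k)‖ ≤
        A ^ 2 * (x : ℝ) ^ (-δ) := by
      intro k hk
      have hkd := hsub hk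
      have hkx := Nat.dvd_of_mem_divisors hkd
      have h1 : k * (x / k) = x := Nat.mul_div_cancel' hkx
      have hk0 : 1 ≤ k := Nat.pos_of_mem_divisors hkd
      have hm0 : 1 ≤ x / k := Nat.div_pos (Nat.le_of_dvd hx0 hkx) hk0
      refine (TT_norm_le H q Y (ζ : ZMod q) hk0 hm0).trans ?_
      rw [h1]
      apply mul_le_of_le_one_right (by positivity)
      rw [Real.exp_le_one_iff]
      have : 0 ≤ 2 * π * (x / k : ℕ) * Y := by positivity
      nlinarith
    refine (sum_le_sum hterm).trans ?_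
    rw [sum_const, nsmul_eq_mul]
    have hc : ((S.filter (fun k => k ∣ x)).card : ℝ) ≤ A * (x : ℝ) ^ (δ / 2) := by
      refine le_trans ?_ (H.hdiv x hx0)
      exact_mod_cast card_le_card hsub
    have e1 : ((S.filter (fun k => k ∣ x)).card : ℝ) * (A ^ 2 * (x : ℝ) ^ (-δ)) ≤
        (A * (x : ℝ) ^ (δ / 2)) * (A ^ 2 * (x : ℝ) ^ (-δ)) :=
      mul_le_mul_of_nonneg_right hc (by positivity)
    refine e1.trans ?_
    have e2 : (A * (x : ℝ) ^ (δ / 2)) * (A ^ 2 * (x : ℝ) ^ (-δ)) =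
        A ^ 3 * (x : ℝ) ^ (-(δ / 2)) := by
      have : (x : ℝ) ^ (δ / 2) * (x : ℝ) ^ (-δ) = (x : ℝ) ^ (-(δ / 2)) := by
        rw [← Real.rpow_add hxr]
        congr 1
        ring
      calc (A * (x : ℝ) ^ (δ / 2)) * (A ^ 2 * (x : ℝ) ^ (-δ)) =
          A ^ 3 * ((x : ℝ) ^ (δ / 2) * (x : ℝ) ^ (-δ)) := by ring
        _ = _ := by rw [this]
    rw [e2]
    have e3 : (x : ℝ) ^ (-(δ / 2)) ≤ (K : ℝ) ^ (-(δ / 2)) := by
      apply Real.rpow_le_rpow_of_nonpos (by linarith)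
      · exact_mod_cast hxK.le
      · linarith [H.dpos]
    have e4 : A ^ 3 * (x : ℝ) ^ (-(δ / 2)) ≤ A ^ 3 * (K : ℝ) ^ (-(δ / 2)) :=
      mul_le_mul_of_nonneg_left e3 (by positivity)
    have e5 : 0 ≤ 2 * π * A ^ 2 * (K : ℝ) ^ 3 * Y := by positivity
    linarith

/-- splitting off the small values -/
theorem tsum_split (H : CoefData a h A δ) {p : ℕ} (hp : p.Prime) {n q : ℕ} [NeZero q] (hn : 1 ≤ n)
    (hq : q = p ^ (n + 1)) {Y : ℝ} (hY : 0 < Y) (ζ : (ZMod q)ˣ) {k : ℕ} (hk : 1 ≤ k)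
    (hpk : ¬ p ∣ k) :
    ‖∑' m : ℕ, TT a h q Y (ζ : ZMod q) k m - (if k ∣ (ζ : ZMod q).val % p ^ n then
          TT a h q Y (ζ : ZMod q) k (((ζ : ZMod q).val % p ^ n) / k) else 0)‖ ≤
      A ^ 2 * ((p : ℝ) ^ n) ^ (-δ) * (1 + 1 / ((p : ℝ) ^ n * Y)) := by
  classical
  have hA : 0 ≤ A := zero_le_one.trans H.Aone
  set D := p ^ n with hD
  have hD0 : 0 < D := pow_pos hp.pos n
  have hDr : ((D : ℕ) : ℝ) = (p : ℝ) ^ n := by rw [hD]; push_cast; rfl
  set x := (ζ : ZMod q).val % D with hx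
  have hpx : ¬ p ∣ x := not_dvd_resid hp hn hq ζ
  have hx0 : 0 < x := Nat.pos_of_ne_zero fun h0 => hpx (h0 ▸ dvd_zero p)
  have hsum := TT_summable H q hY (ζ : ZMod q) hk
  set P : ℕ → Prop := fun m => D ≤ k * m ∧ (k * m) % D = x with hP
  -- outside `P` only `k m = x` contributes
  have hzero : ∀ m : ℕ, ¬ P m → k * m ≠ x → TT a h q Y (ζ : ZMod q) k m = 0 := by
    intro m hm hne
    by_cases hr : RR q ((k : ZMod q) * (m : ZMod q) - (ζ : ZMod q)) = 0
    · rw [TT, hr, zero_div, mul_zero]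
    · exfalso
      have h1 : (p : ZMod q) * ((k : ZMod q) * (m : ZMod q) - (ζ : ZMod q)) = 0 := by
        by_contra h0
        exact hr (RR_eq_zero hp hq _ h0)
      have h2 := cong_of hp hq (ζ : ZMod q) (k * m) (by rw [Nat.cast_mul]; exact h1)
      rw [← hD, ← hx] at h2
      rcases le_or_gt D (k * m) with h3 | h3
      · exact hm ⟨h3, h2⟩
      · rw [Nat.mod_eq_of_lt h3] at h2
        exact hne h2
  have hsP : Summable (fun m : ℕ => if P m then TT a h q Y (ζ : ZMod q) k m else 0) := by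
    refine Summable.of_norm_bounded hsum.norm fun m => ?_
    split_ifs
    · exact le_rfl
    · rw [norm_zero]; exact norm_nonneg _
  have hx_nP : ∀ m, k * m = x → ¬ P m := by
    intro m hm hPm
    have h1 := hPm.1
    have h2 : x < D := Nat.mod_lt _ hD0
    omega
  have hdecomp : ∑' m : ℕ, TT a h q Y (ζ : ZMod q) k m - (if k ∣ x then
          TT a h q Y (ζ : ZMod q) k (x / k) else 0) =
      ∑' m : ℕ, (if P m then TT a h q Y (ζ : ZMod q) k m else 0) := by
    have h1 : ∀ m : ℕ, TT a h q Y (ζ : ZMod q) k m =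
        (if k * m = x then TT a h q Y (ζ : ZMod q) k m else 0) +
          (if P m then TT a h q Y (ζ : ZMod q) k m else 0) := by
      intro m
      by_cases h2 : k * m = x
      · rw [if_pos h2, if_neg (hx_nP m h2), add_zero]
      · rw [if_neg h2, zero_add]
        by_cases h3 : P m
        · rw [if_pos h3]
        · rw [if_neg h3, hzero m h3 h2]
    have hsx : Summable (fun m : ℕ => if k * m = x then TT a h q Y (ζ : ZMod q) k m else 0) := by
      refine Summable.of_norm_bounded hsum.norm fun m => ?_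
      split_ifs
      · exact le_rfl
      · rw [norm_zero]; exact norm_nonneg _
    have h4 : ∑' m : ℕ, (if k * m = x then TT a h q Y (ζ : ZMod q) k m else 0) =
        (if k ∣ x then TT a h q Y (ζ : ZMod q) k (x / k) else 0) := by
      by_cases hkx : k ∣ x
      · have h5 : k * (x / k) = x := Nat.mul_div_cancel' hkx
        rw [if_pos hkx, tsum_eq_single (x / k), if_pos h5]
        intro m hm
        rw [if_neg]
        intro h6
        apply hm
        rw [← h6, Nat.mul_div_cancel_left m hk]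
      · rw [if_neg hkx]
        have : ∀ m : ℕ, (if k * m = x then TT a h q Y (ζ : ZMod q) k m else 0) = 0 := by
          intro m
          rw [if_neg]
          rintro h6
          exact hkx ⟨m, h6.symm⟩
        simp only [this, tsum_zero]
    rw [tsum_congr h1, hsx.tsum_add hsP, h4]
    ring
  rw [hdecomp]
  set c : ℝ := A ^ 2 * ((p : ℝ) ^ n) ^ (-δ) with hc
  have hc0 : 0 ≤ c := by positivity
  have hbound : ∀ m : ℕ, ‖(if P m then TT a h q Y (ζ : ZMod q) k m else 0)‖ ≤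
      c * (if P m then Real.exp (-2 * π * m * Y) else 0) := by
    intro m
    by_cases hPm : P m
    · rw [if_pos hPm, if_pos hPm]
      have hm : 1 ≤ m := by
        rcases Nat.eq_zero_or_pos m with h0 | h0
        · have h1 := hPm.1
          rw [h0, mul_zero] at h1
          omega
        · exact h0
      refine (TT_norm_le H q Y (ζ : ZMod q) hk hm).trans ?_
      apply mul_le_mul_of_nonneg_right _ (Real.exp_pos _).le
      apply mul_le_mul_of_nonneg_left _ (by positivity)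
      rw [← hDr]
      apply Real.rpow_le_rpow_of_nonpos
      · exact_mod_cast hD0
      · exact_mod_cast hPm.1
      · linarith [H.dpos]
    · rw [if_neg hPm, if_neg hPm, norm_zero, mul_zero]
  have hsE : Summable (fun m : ℕ => if P m then Real.exp (-2 * π * m * Y) else 0) := by
    refine Summable.of_nonneg_of_le (fun m => ?_) (fun m => ?_) (summable_exp hY)
    · split_ifs
      · exact (Real.exp_pos _).le
      · exact le_rfl
    · split_ifs
      · exact le_rfl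
      · exact (Real.exp_pos _).le
  have h5 : ‖∑' m : ℕ, (if P m then TT a h q Y (ζ : ZMod q) k m else 0)‖ ≤
      ∑' m : ℕ, c * (if P m then Real.exp (-2 * π * m * Y) else 0) :=
    tsum_of_norm_bounded (hsE.mul_left c).hasSum hbound
  refine h5.trans ?_
  rw [tsum_mul_left, ← hDr]
  apply mul_le_mul_of_nonneg_left _ hc0
  apply class_sum_le hD0 hY P
  intro m m' h1 h2
  have h3 : k * m ≡ k * m' [MOD D] := by
    rw [Nat.ModEq, h1.2, h2.2]
  have h4 : Nat.gcd D k = 1 := by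
    rw [hD]
    exact Nat.Coprime.pow_left n ((Nat.Prime.coprime_iff_not_dvd hp).2 hpk)
  exact Nat.ModEq.cancel_left_of_coprime h4 h3

/-- **The main term.** -/
theorem main_term (H : CoefData a h A δ) {p : ℕ} (hp : p.Prime) {n q : ℕ} [NeZero q] (hn : 1 ≤ n)
    (hq : q = p ^ (n + 1)) {K : ℕ} (hK : 1 ≤ K) {Y : ℝ} (hY : 0 < Y) (ζ : (ZMod q)ˣ)
    (hζ : ζ ^ (p - 1) = 1) :
    ‖∑ k ∈ (Icc 1 K).filter (fun k => ¬ p ∣ k), ∑' m : ℕ, TT a h q Y (ζ : ZMod q) k m -
        (if ζ = 1 then 1 - 1 / (p : ℂ) else 0)‖ ≤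
      2 * π * A ^ 2 * (K : ℝ) ^ 3 * Y + A ^ 3 * (K : ℝ) ^ (-(δ / 2)) +
        A ^ 2 * K * ((p : ℝ) ^ n) ^ (-δ) * (1 + 1 / ((p : ℝ) ^ n * Y)) := by
  have h1 := head_bound H hp hn hq hK hY ζ hζ
  set S := (Icc 1 K).filter (fun k => ¬ p ∣ k) with hS
  have h2 : ‖∑ k ∈ S, (∑' m : ℕ, TT a h q Y (ζ : ZMod q) k m -
      (if k ∣ (ζ : ZMod q).val % p ^ n then
          TT a h q Y (ζ : ZMod q) k (((ζ : ZMod q).val % p ^ n) / k) else 0))‖ ≤
      A ^ 2 * K * ((p : ℝ) ^ n) ^ (-δ) * (1 + 1 / ((p : ℝ) ^ n * Y)) := by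
    refine (norm_sum_le _ _).trans ?_
    have h3 : ∀ k ∈ S, ‖∑' m : ℕ, TT a h q Y (ζ : ZMod q) k m -
      (if k ∣ (ζ : ZMod q).val % p ^ n then
          TT a h q Y (ζ : ZMod q) k (((ζ : ZMod q).val % p ^ n) / k) else 0)‖ ≤
        A ^ 2 * ((p : ℝ) ^ n) ^ (-δ) * (1 + 1 / ((p : ℝ) ^ n * Y)) := by
      intro k hk
      rw [hS, mem_filter, mem_Icc] at hk
      exact tsum_split H hp hn hq hY ζ hk.1.1 hk.2
    refine (sum_le_sum h3).trans ?_
    rw [sum_const, nsmul_eq_mul]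
    have hcard : (S.card : ℝ) ≤ K := by
      have : S.card ≤ (Icc 1 K).card := card_filter_le _ _
      rw [Nat.card_Icc, Nat.add_sub_cancel] at this
      exact_mod_cast this
    have h4 : 0 ≤ A ^ 2 * ((p : ℝ) ^ n) ^ (-δ) * (1 + 1 / ((p : ℝ) ^ n * Y)) := by positivity
    calc (S.card : ℝ) * (A ^ 2 * ((p : ℝ) ^ n) ^ (-δ) * (1 + 1 / ((p : ℝ) ^ n * Y))) ≤
        K * (A ^ 2 * ((p : ℝ) ^ n) ^ (-δ) * (1 + 1 / ((p : ℝ) ^ n * Y))) :=
          mul_le_mul_of_nonneg_right hcard h4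
      _ = _ := by ring
  rw [sum_sub_distrib] at h2
  set X1 := ∑ k ∈ S, ∑' m : ℕ, TT a h q Y (ζ : ZMod q) k m
  set X2 := ∑ k ∈ S, (if k ∣ (ζ : ZMod q).val % p ^ n then
          TT a h q Y (ζ : ZMod q) k (((ζ : ZMod q).val % p ^ n) / k) else 0)
  set X3 : ℂ := (if ζ = 1 then 1 - 1 / (p : ℂ) else 0)
  calc ‖X1 - X3‖ = ‖(X2 - X3) + (X1 - X2)‖ := by congr 1; ring
    _ ≤ ‖X2 - X3‖ + ‖X1 - X2‖ := norm_add_le _ _
    _ ≤ _ := add_le_add h1 h2

end Pool.Agent.MU71
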