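import Pool.Agent.MU71.Core
import Pool.Agent.MuOne.Split

/-!
# The nonvanishing theorem
-/

set_option autoImplicit false

open Finset UpperHalfPlane CongruenceSubgroup
open Pool.Agent.MZ Pool.Agent.MZ.Per
open scoped MatrixGroups Real OnePoint

namespace Pool.Agent.MU71

open Pool.Agent.MU1

/-- the core inequality for cusp forms -/
theorem cusp_core {N : ℕ} [NeZero N] (f : CuspForm (Gamma0 N) 2) {a h : ℕ → ℤ} {A δ : ℝ}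
    (ha : ∀ n, (qExpansion 1 f).coeff n = a n) (H : CoefData a h A δ) :
    ∃ C : ℝ, 0 < C ∧ ∀ (p : ℕ), p.Prime → p ≠ 2 → ¬ p ∣ N → ∀ (ν q : ℕ) [NeZero q], 1 ≤ ν →
      q = p ^ (2 * ν) → ∀ w : (ZMod q)ˣ → ℝ, w 1 = 1 → (∀ ζ ∈ HH p q, |w ζ| ≤ 1) →
      (∀ ζ, w (-ζ) = w ζ) → ∀ c : ℝ, (∀ b : (ZMod q)ˣ, ∑ ζ ∈ HH p q, w ζ *
        S f (((((ζ * b : (ZMod q)ˣ) : ZMod q).val : ℚ) / (q : ℚ) : ℚ) : OnePoint ℚ) = c) →
      ∀ (K : ℕ), 1 ≤ K → ∀ (Y : ℝ), 0 < Y →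
        1 - 1 / (p : ℝ) ≤ ((p : ℝ) - 1) * (2 * π * A ^ 2 * (K : ℝ) ^ 3 * Y +
          A ^ 3 * (K : ℝ) ^ (-(δ / 2)) +
          A ^ 2 * K * ((p : ℝ) ^ (2 * ν - 1)) ^ (-δ) * (1 + 1 / ((p : ℝ) ^ (2 * ν - 1) * Y))) +
        ((p : ℝ) - 1) * (A * K * ((C * (1 / ((q : ℝ) ^ 2 * Y)) ^ (-(1 / 2 : ℝ))) *
          (2 * (p : ℝ) ^ ν) / q)) := by
  obtain ⟨g, C, hC, hg, hsplit⟩ := Pool.Agent.MuOne.bd_split f ha
  refine ⟨C, hC, ?_⟩
  intro p hp hp2 hpN ν q _ hν hq w hw1 hwle hweven c hc K hK Y hY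
  have hA : 0 ≤ A := zero_le_one.trans H.Aone
  have hq0 : 0 < q := Nat.pos_of_ne_zero (NeZero.ne q)
  have hqr : (0 : ℝ) < q := by exact_mod_cast hq0
  have hp1 : (1 : ℝ) ≤ p := by exact_mod_cast hp.one_lt.le
  have hqN : q.Coprime N := by
    rw [hq]
    exact Nat.Coprime.pow_left _ ((Nat.Prime.coprime_iff_not_dvd hp).2 hpN)
  set y : ℝ := 1 / ((q : ℝ) ^ 2 * Y) with hy
  have hy0 : 0 < y := by positivity
  set γ : ℕ → ℂ := fun m => g m * (Real.exp (-2 * π * m * y / N) : ℂ) with hγ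
  have hγn : ∀ m, ‖γ m‖ = ‖g m‖ * Real.exp (-2 * π * m * y / N) := by
    intro m
    rw [hγ]
    simp only
    rw [norm_mul, Complex.norm_real, Real.norm_of_nonneg (Real.exp_pos _).le]
  have hγs : Summable (fun m => ‖γ m‖) := by
    refine (hg y hy0).1.congr fun m => ?_
    rw [hγn]
  set s : (ZMod q)ˣ := -(ZMod.unitOfCoprime N hqN.symm)⁻¹ with hs
  set F : (ZMod q)ˣ → ℝ := fun b =>
    S f ((((b : ZMod q).val : ℚ) / (q : ℚ) : ℚ) : OnePoint ℚ) with hF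
  have hFF : ∀ b : (ZMod q)ˣ, F b = (PP a q Y (b : ZMod q)).re -
      (∑' m : ℕ, γ m * ZMod.stdAddChar ((m : ZMod q) * ((s * b⁻¹ : (ZMod q)ˣ) : ZMod q))).re := by
    intro b
    set v : ℕ := ((s * b⁻¹ : (ZMod q)ˣ) : ZMod q).val with hv
    have hcop : IsCoprime (((b : ZMod q).val : ℕ) : ℤ) (q : ℤ) :=
      Nat.isCoprime_iff_coprime.2 (ZMod.val_coe_unit_coprime b)
    have hdvd : (q : ℤ) ∣ N * (v : ℤ) * (((b : ZMod q).val : ℕ) : ℤ) + 1 := by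
      rw [← ZMod.intCast_zmod_eq_zero_iff_dvd]
      push_cast
      rw [hv, ZMod.natCast_zmod_val, ZMod.natCast_zmod_val]
      have e1 : ((ZMod.unitOfCoprime N hqN.symm : (ZMod q)ˣ) : ZMod q) = (N : ZMod q) :=
        ZMod.coe_unitOfCoprime N hqN.symm
      rw [Units.val_mul, ← e1, hs, Units.val_neg]
      have e2 : ((ZMod.unitOfCoprime N hqN.symm : (ZMod q)ˣ) : ZMod q) *
        (((ZMod.unitOfCoprime N hqN.symm)⁻¹ : (ZMod q)ˣ) : ZMod q) = 1 := Units.mul_inv _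
      have e3 : ((b⁻¹ : (ZMod q)ˣ) : ZMod q) * (b : ZMod q) = 1 := Units.inv_mul b
      linear_combination (-(((b⁻¹ : (ZMod q)ˣ) : ZMod q) * (b : ZMod q))) * e2 - e3
    have h1 := hsplit q hq0 hqN (((b : ZMod q).val : ℕ) : ℤ) (v : ℤ) hcop hdvd Y hY
    have h2 : F b = (bd (G f) (((((((b : ZMod q).val : ℕ) : ℤ) : ℚ) / (q : ℚ) : ℚ)) :
        OnePoint ℚ)).re := by
      rw [hF]
      simp only [S, Int.cast_natCast]
    rw [h2, h1, Complex.sub_re]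
    have hexp : ∀ (m : ℕ) (x : ZMod q), Complex.exp (2 * π * Complex.I * m * ((x.val : ℕ) : ℤ) / q) =
        ZMod.stdAddChar ((m : ZMod q) * x) := by
      intro m x
      have e1 : (m : ZMod q) * x = (((m : ℤ) * ((x.val : ℕ) : ℤ) : ℤ) : ZMod q) := by
        push_cast
        rw [ZMod.natCast_zmod_val]
      rw [e1, ZMod.stdAddChar_coe]
      push_cast
      congr 1
      ring
    congr 2
    · rw [PP]
      exact tsum_congr fun m => by rw [hexp]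
    · exact tsum_congr fun m => by rw [hexp]
  have hmain := core_ineq H hp hp2 hν hq hK hY hγs s F hFF w hw1 hwle hweven c hc
  refine hmain.trans ?_
  have h1 : ∑' m : ℕ, ‖γ m‖ ≤ C * y ^ (-(1 / 2 : ℝ)) := by
    rw [tsum_congr hγn]
    exact (hg y hy0).2
  have h2 : 0 ≤ (p : ℝ) - 1 := by linarith
  gcongr

theorem rpow_bound {P e : ℝ} (hP : 1 ≤ P) {k j : ℕ} (h : (j : ℝ) ≤ k * e) :
    (P ^ k) ^ (-e) ≤ 1 / P ^ j := by
  have hP0 : 0 < P := by linarith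
  rw [← Real.rpow_natCast P k, ← Real.rpow_mul hP0.le, ← Real.rpow_natCast P j, _root_.one_div,
    ← Real.rpow_neg hP0.le]
  apply Real.rpow_le_rpow_of_exponent_le hP
  linarith

/-- the choice of the parameters -/
theorem param {A δ C : ℝ} (hA : 1 ≤ A) (hδ : 0 < δ) (hC : 0 < C) :
    ∃ ν : ℕ, 1 ≤ ν ∧ ∃ p₀ : ℕ, ∀ p : ℕ, p₀ ≤ p → 2 ≤ p → ∃ (K : ℕ) (Y : ℝ), 1 ≤ K ∧ 0 < Y ∧
      ((p : ℝ) - 1) * (2 * π * A ^ 2 * (K : ℝ) ^ 3 * Y +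
          A ^ 3 * (K : ℝ) ^ (-(δ / 2)) +
          A ^ 2 * K * ((p : ℝ) ^ (2 * ν - 1)) ^ (-δ) * (1 + 1 / ((p : ℝ) ^ (2 * ν - 1) * Y))) +
        ((p : ℝ) - 1) * (A * K * ((C * (1 / (((p : ℝ) ^ (2 * ν)) ^ 2 * Y)) ^ (-(1 / 2 : ℝ))) *
          (2 * (p : ℝ) ^ ν) / (p : ℝ) ^ (2 * ν))) < 1 - 1 / (p : ℝ) := by
  have hπ := Real.pi_pos
  set k0 : ℕ := ⌈4 / δ⌉₊ with hk0
  have hk0' : 4 / δ ≤ k0 := Nat.le_ceil _
  have hk0δ : 4 ≤ k0 * δ := by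
    rwa [div_le_iff₀ hδ] at hk0'
  set j : ℕ := k0 + (2 * k0 + 4) + 3 with hj
  set ν : ℕ := ⌈(j : ℝ) / δ⌉₊ + 3 * k0 + 2 with hν
  have hνδ : (j : ℝ) ≤ ((2 * ν - 1 : ℕ) : ℝ) * δ := by
    have h1 : (j : ℝ) / δ ≤ ⌈(j : ℝ) / δ⌉₊ := Nat.le_ceil _
    rw [div_le_iff₀ hδ] at h1
    refine h1.trans (mul_le_mul_of_nonneg_right ?_ hδ.le)
    exact_mod_cast (by omega : ⌈(j : ℝ) / δ⌉₊ ≤ 2 * ν - 1)
  set M : ℝ := 2 * π * A ^ 2 + A ^ 3 + 2 * A ^ 2 + 2 * A * C with hM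
  have hM0 : 0 ≤ M := by
    have : 0 ≤ A := by linarith
    positivity
  refine ⟨ν, by omega, ⌈M + 1⌉₊ + 1, ?_⟩
  intro p hp hp2
  set P : ℝ := (p : ℝ) with hP
  have hPM : M + 1 < P := by
    have h1 : M + 1 ≤ ⌈M + 1⌉₊ := Nat.le_ceil _
    have h2 : ((⌈M + 1⌉₊ + 1 : ℕ) : ℝ) ≤ P := by
      rw [hP]
      exact_mod_cast hp
    push_cast at h2
    linarith
  have hP1 : 1 ≤ P := by linarith
  have hP0 : 0 < P := by linarith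
  have hA0 : 0 ≤ A := by linarith
  set y0 : ℕ := 2 * k0 + 4 with hy0
  refine ⟨p ^ k0, 1 / (P ^ (2 * ν) * P ^ y0), Nat.one_le_pow _ _ (by omega), by positivity, ?_⟩
  have hKr : ((p ^ k0 : ℕ) : ℝ) = P ^ k0 := by rw [hP]; push_cast; rfl
  rw [hKr]
  -- (i)
  have t1 : 2 * π * A ^ 2 * (P ^ k0) ^ 3 * (1 / (P ^ (2 * ν) * P ^ y0)) ≤ 2 * π * A ^ 2 / P ^ 2 := by
    rw [mul_one_div, div_le_div_iff₀ (by positivity) (by positivity)]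
    have e1 : (P ^ k0) ^ 3 * P ^ 2 ≤ P ^ (2 * ν) * P ^ y0 := by
      rw [← pow_mul, ← pow_add, ← pow_add]
      exact pow_le_pow_right₀ hP1 (by omega)
    calc 2 * π * A ^ 2 * (P ^ k0) ^ 3 * P ^ 2 = 2 * π * A ^ 2 * ((P ^ k0) ^ 3 * P ^ 2) := by ring
      _ ≤ _ := mul_le_mul_of_nonneg_left e1 (by positivity)
  -- (ii)
  have t2 : A ^ 3 * (P ^ k0) ^ (-(δ / 2)) ≤ A ^ 3 / P ^ 2 := by
    have h1 : (P ^ k0) ^ (-(δ / 2)) ≤ 1 / P ^ 2 := by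
      apply rpow_bound hP1
      push_cast
      linarith
    calc A ^ 3 * (P ^ k0) ^ (-(δ / 2)) ≤ A ^ 3 * (1 / P ^ 2) :=
          mul_le_mul_of_nonneg_left h1 (by positivity)
      _ = A ^ 3 / P ^ 2 := by ring
  -- (iii)
  have t3 : A ^ 2 * P ^ k0 * (P ^ (2 * ν - 1)) ^ (-δ) *
      (1 + 1 / (P ^ (2 * ν - 1) * (1 / (P ^ (2 * ν) * P ^ y0)))) ≤ 2 * A ^ 2 / P ^ 2 := by
    have e1 : 1 / (P ^ (2 * ν - 1) * (1 / (P ^ (2 * ν) * P ^ y0))) = P ^ (y0 + 1) := by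
      have h1 : P ^ (2 * ν) = P ^ (2 * ν - 1) * P := by
        rw [← pow_succ]
        congr 1
      have h2 : P ^ (y0 + 1) = P ^ y0 * P := pow_succ _ _
      rw [h1, h2]
      field_simp
    have e2 : (P ^ (2 * ν - 1)) ^ (-δ) ≤ 1 / P ^ j := rpow_bound hP1 hνδ
    have e3 : (1 : ℝ) ≤ P ^ (y0 + 1) := one_le_pow₀ hP1
    rw [e1]
    calc A ^ 2 * P ^ k0 * (P ^ (2 * ν - 1)) ^ (-δ) * (1 + P ^ (y0 + 1)) ≤
        A ^ 2 * P ^ k0 * (1 / P ^ j) * (2 * P ^ (y0 + 1)) := by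
          apply mul_le_mul _ (by linarith) (by positivity) (by positivity)
          exact mul_le_mul_of_nonneg_left e2 (by positivity)
      _ = 2 * A ^ 2 / P ^ 2 := by
          have h1 : P ^ j = P ^ k0 * P ^ (y0 + 1) * P ^ 2 := by
            rw [← pow_add, ← pow_add]
            congr 1
          rw [h1]
          field_simp
  -- (iv)
  have t4 : A * P ^ k0 * ((C * (1 / ((P ^ (2 * ν)) ^ 2 * (1 / (P ^ (2 * ν) * P ^ y0)))) ^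
      (-(1 / 2 : ℝ))) * (2 * P ^ ν) / P ^ (2 * ν)) = 2 * A * C / P ^ 2 := by
    have e1 : 1 / ((P ^ (2 * ν)) ^ 2 * (1 / (P ^ (2 * ν) * P ^ y0))) =
        ((P ^ ν / P ^ (k0 + 2)) ^ 2)⁻¹ := by
      have h1 : P ^ y0 = P ^ (k0 + 2) * P ^ (k0 + 2) := by
        rw [← pow_add]
        congr 1
        omega
      have h2 : P ^ (2 * ν) = P ^ ν * P ^ ν := by
        rw [← pow_add]
        congr 1
        omega
      rw [h1, h2]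
      field_simp
    have e2 : (((P ^ ν / P ^ (k0 + 2)) ^ 2)⁻¹) ^ (-(1 / 2 : ℝ)) = P ^ ν / P ^ (k0 + 2) := by
      rw [Real.inv_rpow (by positivity), Real.rpow_neg (by positivity), inv_inv,
        ← Real.sqrt_eq_rpow, Real.sqrt_sq (by positivity)]
    rw [e1, e2]
    have h2 : P ^ (2 * ν) = P ^ ν * P ^ ν := by
      rw [← pow_add]
      congr 1
      omega
    have h3 : P ^ (k0 + 2) = P ^ k0 * P ^ 2 := pow_add _ _ _
    rw [h2, h3]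
    field_simp
  rw [t4]
  have hPm : 0 ≤ P - 1 := by linarith
  have hsum : 2 * π * A ^ 2 * (P ^ k0) ^ 3 * (1 / (P ^ (2 * ν) * P ^ y0)) +
      A ^ 3 * (P ^ k0) ^ (-(δ / 2)) +
      A ^ 2 * P ^ k0 * (P ^ (2 * ν - 1)) ^ (-δ) *
      (1 + 1 / (P ^ (2 * ν - 1) * (1 / (P ^ (2 * ν) * P ^ y0)))) ≤
      (2 * π * A ^ 2 + A ^ 3 + 2 * A ^ 2) / P ^ 2 := by
    have : (2 * π * A ^ 2 + A ^ 3 + 2 * A ^ 2) / P ^ 2 =
        2 * π * A ^ 2 / P ^ 2 + A ^ 3 / P ^ 2 + 2 * A ^ 2 / P ^ 2 := by ring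
    rw [this]
    exact add_le_add (add_le_add t1 t2) t3
  have h1 := mul_le_mul_of_nonneg_left hsum hPm
  have h2 : (P - 1) * ((2 * π * A ^ 2 + A ^ 3 + 2 * A ^ 2) / P ^ 2) +
      (P - 1) * (2 * A * C / P ^ 2) = (P - 1) * (M / P ^ 2) := by
    rw [hM]
    ring
  have h3 : (P - 1) * (M / P ^ 2) ≤ M / P := by
    rw [mul_div_assoc', div_le_div_iff₀ (by positivity) hP0]
    nlinarith [mul_nonneg hM0 hP0.le]
  have h4 : M / P < 1 - 1 / P := by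
    rw [lt_sub_iff_add_lt, ← add_div, div_lt_one hP0]
    exact hPM
  linarith

/-- **Nonvanishing.** -/
theorem nonvanish {N : ℕ} [NeZero N] (f : CuspForm (Gamma0 N) 2) {a h : ℕ → ℤ} {A δ : ℝ}
    (ha : ∀ n, (qExpansion 1 f).coeff n = a n) (H : CoefData a h A δ) :
    ∃ n : ℕ, 2 ≤ n ∧ ∃ p₀ : ℕ, ∀ (p : ℕ) [Fact p.Prime], p₀ ≤ p → ∀ w : (ZMod (p ^ n))ˣ → ℝ,
      (∀ ζ, w (-ζ) = w ζ) →
      (∃ c : ℝ, ∀ b : (ZMod (p ^ n))ˣ, ∑ ζ ∈ univ.filter (fun ζ : (ZMod (p ^ n))ˣ => ζ ^ (p - 1) = 1),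
        w ζ * S f (((((ζ * b : (ZMod (p ^ n))ˣ) : ZMod (p ^ n)).val : ℚ) / ((p ^ n : ℕ) : ℚ) : ℚ) :
          OnePoint ℚ) = c) →
      ∀ ζ, ζ ^ (p - 1) = 1 → w ζ = 0 := by
  obtain ⟨C, hC, hcore⟩ := cusp_core f ha H
  obtain ⟨ν, hν, p₀, hpar⟩ := param H.Aone H.dpos hC
  refine ⟨2 * ν, by omega, max p₀ (max 3 (N + 1)), ?_⟩
  intro p hpF hp w hweven hconst
  have hpp := hpF.out
  have hp1 : p₀ ≤ p := (le_max_left _ _).trans hp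
  have hp2 : 3 ≤ p := (le_max_left 3 (N + 1)).trans ((le_max_right _ _).trans hp)
  have hp3 : N + 1 ≤ p := (le_max_right 3 (N + 1)).trans ((le_max_right _ _).trans hp)
  have hpN : ¬ p ∣ N := by
    intro hd
    have := Nat.le_of_dvd (Nat.pos_of_ne_zero (NeZero.ne N)) hd
    omega
  obtain ⟨c, hc⟩ := hconst
  by_contra hcon
  push Not at hcon
  obtain ⟨ζ₁, hζ₁, hwζ₁⟩ := hcon
  have hmem1 : ζ₁ ∈ HH p (p ^ (2 * ν)) := by
    rw [HH, mem_filter]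
    exact ⟨mem_univ _, hζ₁⟩
  obtain ⟨ζ₀, hζ₀, hmax⟩ := (HH p (p ^ (2 * ν))).exists_max_image (fun ζ => |w ζ|) ⟨ζ₁, hmem1⟩
  have hw0 : w ζ₀ ≠ 0 := by
    intro h0
    have := hmax ζ₁ hmem1
    rw [h0, abs_zero] at this
    exact hwζ₁ (abs_nonpos_iff.1 this)
  have hζ₀' : ζ₀ ^ (p - 1) = 1 := by
    rw [HH, mem_filter] at hζ₀
    exact hζ₀.2
  have hmul : ∀ ζ ∈ HH p (p ^ (2 * ν)), ζ * ζ₀ ∈ HH p (p ^ (2 * ν)) := by
    intro ζ hζ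
    rw [HH, mem_filter] at hζ ⊢
    exact ⟨mem_univ _, by rw [_root_.mul_pow, hζ.2, hζ₀', one_mul]⟩
  have hmul' : ∀ ζ ∈ HH p (p ^ (2 * ν)), ζ * ζ₀⁻¹ ∈ HH p (p ^ (2 * ν)) := by
    intro ζ hζ
    rw [HH, mem_filter] at hζ ⊢
    exact ⟨mem_univ _, by rw [_root_.mul_pow, hζ.2, inv_pow, hζ₀', inv_one, one_mul]⟩
  obtain ⟨K, Y, hK, hY, hlt⟩ := hpar p hp1 (by omega)
  have h1 := hcore p hpp (by omega) hpN ν (p ^ (2 * ν)) hν rfl (fun ζ => w (ζ * ζ₀) / w ζ₀)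
    (by simp only [one_mul]; exact div_self hw0)
    (by
      intro ζ hζ
      rw [abs_div, div_le_one (abs_pos.2 hw0)]
      exact hmax _ (hmul ζ hζ))
    (by
      intro ζ
      simp only [neg_mul]
      rw [hweven])
    (c / w ζ₀)
    (by
      intro b
      have h2 := hc (ζ₀⁻¹ * b)
      rw [← h2, sum_div]
      refine sum_bij' (fun ζ _ => ζ * ζ₀) (fun ζ _ => ζ * ζ₀⁻¹) ?_ ?_ ?_ ?_ ?_
      · intro ζ hζ; exact hmul ζ hζ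
      · intro ζ hζ; exact hmul' ζ hζ
      · intro ζ _; exact mul_inv_cancel_right ζ ζ₀
      · intro ζ _; exact inv_mul_cancel_right ζ ζ₀
      · intro ζ _
        have e1 : ζ * ζ₀ * (ζ₀⁻¹ * b) = ζ * b := by
          rw [mul_assoc, mul_inv_cancel_left]
        rw [e1]
        ring)
    K hK Y hY
  push_cast at h1
  linarith

end Pool.Agent.MU71
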