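import Pool.Agent.MU71.Defs
import Pool.Agent.MU1.Kl2
import Pool.Agent.MU1.Kloo

/-!
# Normalised Ramanujan sums and Kloosterman sums
-/

set_option autoImplicit false

open Finset

namespace Pool.Agent.MU71

open Pool.Agent.MU1

theorem ram_eq_RR (Q : ℕ) [NeZero Q] (x : ZMod Q) : ram Q x = (1 / (Q : ℂ)) * RR Q x := rfl

theorem kloost {p : ℕ} [Fact p.Prime] (hp2 : p ≠ 2) {ν : ℕ} (hν : 1 ≤ ν)
    (M : (ZMod (p ^ (2 * ν)))ˣ) (m : ZMod (p ^ (2 * ν))) :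
    ‖∑ b : (ZMod (p ^ (2 * ν)))ˣ, (ZMod.stdAddChar ((M : ZMod (p ^ (2 * ν))) * (b : ZMod (p ^ (2 * ν))) +
      m * ((b⁻¹ : (ZMod (p ^ (2 * ν)))ˣ) : ZMod (p ^ (2 * ν)))) : ℂ)‖ ≤ 2 * (p : ℝ) ^ ν :=
  kloosterman_le (Fact.out : p.Prime) hp2 hν rfl (M : ZMod (p ^ (2 * ν))) m M.isUnit

theorem ram_zero {p : ℕ} [hp : Fact p.Prime] {n : ℕ} (hn : 1 ≤ n) :
    ram (p ^ n) 0 = 1 - 1 / (p : ℂ) := by
  have hp0 : (p : ℂ) ≠ 0 := by exact_mod_cast hp.out.ne_zero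
  rw [ram_eq_RR, RR_zero, Nat.totient_prime_pow hp.out hn]
  obtain ⟨n, rfl⟩ : ∃ m, n = m + 1 := ⟨n - 1, by omega⟩
  rw [Nat.cast_mul, Nat.cast_pow, Nat.cast_pow, Nat.cast_sub hp.out.one_lt.le]
  simp only [Nat.add_sub_cancel, Nat.cast_one]
  rw [pow_succ]
  have : ((p : ℂ) ^ n) ≠ 0 := pow_ne_zero _ hp0
  field_simp

theorem ram_norm_le {Q : ℕ} [NeZero Q] (x : ZMod Q) : ‖ram Q x‖ ≤ 1 := by
  rw [ram_eq_RR, norm_mul, norm_div, norm_one, Complex.norm_natCast]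
  have hQ : (0 : ℝ) < Q := by exact_mod_cast Nat.pos_of_ne_zero (NeZero.ne Q)
  rw [one_div, inv_mul_le_iff₀ hQ, mul_one]
  exact RR_norm_le Q x

/-- vanishes unless `p^(n-1)` divides `x` -/
theorem ram_eq_zero {p : ℕ} [hp : Fact p.Prime] {n : ℕ} (hn : 1 ≤ n) (x : ℤ)
    (hx : ¬ ((p : ℤ) ^ (n - 1) ∣ x)) : ram (p ^ n) (x : ZMod (p ^ n)) = 0 := by
  obtain ⟨n, rfl⟩ : ∃ m, n = m + 1 := ⟨n - 1, by omega⟩
  rw [ram_eq_RR, RR_eq_zero hp.out (n := n) rfl, mul_zero]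
  intro h
  apply hx
  have h1 : ((p * x : ℤ) : ZMod (p ^ (n + 1))) = 0 := by
    push_cast
    exact h
  rw [ZMod.intCast_zmod_eq_zero_iff_dvd] at h1
  push_cast at h1
  rw [pow_succ', Nat.add_sub_cancel] at *
  have hp0 : (p : ℤ) ≠ 0 := by exact_mod_cast hp.out.ne_zero
  exact (mul_dvd_mul_iff_left hp0).1 h1

theorem ram_mul_unit {Q : ℕ} [NeZero Q] (x : ZMod Q) (u : (ZMod Q)ˣ) :
    ram Q (u * x) = ram Q x := by
  rw [ram, ram]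
  congr 1
  rw [← Equiv.sum_comp (Equiv.mulLeft u) (fun b : (ZMod Q)ˣ => ZMod.stdAddChar (x * (b : ZMod Q)))]
  apply Finset.sum_congr rfl
  intro b _
  congr 1
  rw [Equiv.coe_mulLeft, Units.val_mul]
  ring

end Pool.Agent.MU71
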